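import Pool.Agent.Y94.R.Ring
set_option autoImplicit false

/-!
The second unit `(A + B y) / x ^ k` of the hyperelliptic curve `y² = D(x)` and the symbols
`p {P + Q y, h} + q {(A + B y) / x ^ k, h / h(0)}`, `h = (x - b_i) / (x - b_j)`.
-/

namespace Pool.Agent.T9h73.TP

open Polynomial

open Pool.Agent.TH826.MK (KQ symb)

open Pool.Agent.Y94.R (HRing HOpen hpol hy hy_eq toH hcst hx hz isUnit_hx coe_hx coe_hz)

variable {K : Type*} [Field K] {D P Q A B : K[X]} {k : ℕ} {n : ℕ} (b : Fin n → K)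

theorem isUnit_num (hAB : A ^ 2 - D * B ^ 2 = X ^ (2 * k)) {i₀ : Fin n} (h0 : b i₀ = 0) :
    IsUnit (toH D b (hpol D A + hpol D B * hy D)) := by
  have h1 := congrArg (hpol D) hAB
  simp only [map_sub, map_mul, map_pow] at h1
  have h2 : (hpol D A + hpol D B * hy D) * (hpol D A - hpol D B * hy D) =
      hpol D (X - C (b i₀)) ^ (2 * k) := by
    rw [h0, C_0, sub_zero]
    linear_combination h1 - hpol D B ^ 2 * hy_eq D
  refine isUnit_of_dvd_unit (y := toH D b (hpol D (X - C (b i₀)) ^ (2 * k))) ?_ ?_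
  · exact map_dvd _ ⟨_, h2.symm⟩
  · rw [map_pow]
    exact (isUnit_hx D b i₀).pow _

/-- The unit `(A(x) + B(x) y) / x ^ k` of the open part of the curve, where `x = x - b_{i₀}`
is one of the inverted functions. -/
noncomputable def hw (hAB : A ^ 2 - D * B ^ 2 = X ^ (2 * k)) {i₀ : Fin n} (h0 : b i₀ = 0) :
    (HOpen D b)ˣ := (isUnit_num b hAB h0).unit / hx D b i₀ ^ k

variable (D) in
/-- A nonzero constant `c` as a unit (and `1` for `c = 0`). -/
noncomputable def hcu (c : K) : (HOpen D b)ˣ :=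
  open scoped Classical in
  Units.map (hcst D b : K →* HOpen D b) (if h : c = 0 then 1 else Units.mk0 c h)

/-- The element `p {P + Q y, h} + q {(A + B y) / x ^ k, h / h(0)}`,
`h = (x - b_i) / (x - b_j)`, of the `K`-group of the open part of the curve. -/
noncomputable def sy (hPQ : P ^ 2 - D * Q ^ 2 = 1) (hAB : A ^ 2 - D * B ^ 2 = X ^ (2 * k))
    {i₀ : Fin n} (h0 : b i₀ = 0) (p q : ℤ) (i j : Fin n) : KQ (HOpen D b) 2 :=
  (p : ℚ) • symb ![hz b hPQ, hx D b i / hx D b j] +
    (q : ℚ) • symb ![hw b hAB h0, hx D b i / hx D b j * hcu D b (b j / b i)]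

end Pool.Agent.T9h73.TP
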