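import Pool.Agent.T9h73.TP.Key
import Pool.Agent.T9h73.TP.Def
set_option autoImplicit false

/-!
The symbols `p {P + Q y, (x - b) / (x - b')} + q {(A + B y) / x ^ k, b' (x - b) / (b (x - b'))}` are
unramified.
-/

namespace Pool.Agent.T9h73.TP

open Polynomial

open Pool.Agent.TH826.MK (KQ symb unitPart symb_update_mul symb_update_zpow
  mem_unitPart_of_oneUnit' mem_unitPart_of_pow val_one_of_sub_one)

open scoped WithZero

section Val

variable {L : Type*} [Field L] (v : Valuation L ℤᵐ⁰)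

/-- an element `q` with `q + 1 / q` integral is a unit -/
theorem val_eq_one {q a : L} (hq0 : q ≠ 0) (ha : v a ≤ 1) (hq : q ^ 2 + 1 = a * q) : v q = 1 := by
  rcases lt_trichotomy (v q) 1 with h | h | h
  · exfalso
    have h1 : v (q ^ 2 + 1) = 1 := by
      rw [add_comm]
      refine Valuation.map_one_add_of_lt v ?_
      rw [map_pow]
      exact pow_lt_one₀ zero_le h (by norm_num)
    rw [hq, map_mul] at h1
    have h2 : v a * v q < 1 := by
      calc v a * v q ≤ 1 * v q := mul_le_mul_left ha _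
        _ = v q := one_mul _
        _ < 1 := h
    exact h2.ne h1
  · exact h
  · exfalso
    have h1 : v (q ^ 2 + 1) = v q ^ 2 := by
      rw [← map_pow]
      refine Valuation.map_add_eq_of_lt_left v ?_
      rw [map_one, map_pow]
      exact one_lt_pow₀ h (by norm_num)
    rw [hq, map_mul, pow_two] at h1
    have h2 : v a = v q := mul_right_cancel₀ ((Valuation.ne_zero_iff v).2 hq0) h1
    rw [h2] at ha
    exact absurd h (not_lt.2 ha)

/-- the one-units -/
def oneUnits : Subgroup Lˣ where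
  carrier := {u | v ((u : L) - 1) < 1}
  one_mem' := by simp
  mul_mem' := by
    intro a b ha hb
    have h1 : v (b : L) = 1 := val_one_of_sub_one hb
    have h2 : ((a * b : Lˣ) : L) - 1 = ((a : L) - 1) * b + ((b : L) - 1) := by
      rw [Units.val_mul]
      ring
    show v (((a * b : Lˣ) : L) - 1) < 1
    rw [h2]
    refine (v.map_add _ _).trans_lt (max_lt ?_ hb)
    rw [map_mul, h1, mul_one]
    exact ha
  inv_mem' := by
    intro a ha
    have h1 : v (a : L) = 1 := val_one_of_sub_one ha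
    have h2 : ((a⁻¹ : Lˣ) : L) - 1 = -(((a : L) - 1) * (a : L)⁻¹) := by
      rw [Units.val_inv_eq_inv_val]
      have h3 := a.ne_zero
      field_simp
      ring
    show v (((a⁻¹ : Lˣ) : L) - 1) < 1
    rw [h2, Valuation.map_neg, map_mul, map_inv₀, h1, inv_one, mul_one]
    exact ha

theorem mem_oneUnits {u : Lˣ} : u ∈ oneUnits v ↔ v ((u : L) - 1) < 1 := Iff.rfl

/-- two units with the same residue -/
theorem div_mem_oneUnits {a b : Lˣ} (hb : v (b : L) = 1) (h : v ((a : L) - b) < 1) :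
    a / b ∈ oneUnits v := by
  rw [mem_oneUnits, Units.val_div_eq_div_val]
  have h1 : (a : L) / b - 1 = ((a : L) - b) / b := by
    have := b.ne_zero
    field_simp
  rw [h1, map_div₀, hb, div_one]
  exact h

theorem mem_unitPart_of_units {a b : Lˣ} (ha : v (a : L) = 1) (hb : v (b : L) = 1) :
    symb ![a, b] ∈ unitPart v 2 := by
  refine Submodule.subset_span ⟨![a, b], fun i => ?_, rfl⟩
  fin_cases i
  · exact ha
  · exact hb

theorem symb_mul_left {A : Type*} [CommRing A] (a b c : Aˣ) :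
    symb ![a * b, c] = symb ![a, c] + symb ![b, c] := by
  have h := symb_update_mul ![a, c] 0 a b
  have e : ∀ d : Aˣ, Function.update ![a, c] 0 d = ![d, c] := by
    intro d
    funext i
    fin_cases i <;> simp
  rwa [e, e, e] at h

theorem symb_mul_right {A : Type*} [CommRing A] (a b c : Aˣ) :
    symb ![a, b * c] = symb ![a, b] + symb ![a, c] := by
  have h := symb_update_mul ![a, b] 1 b c
  have e : ∀ d : Aˣ, Function.update ![a, b] 1 d = ![a, d] := by
    intro d
    funext i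
    fin_cases i <;> simp
  rwa [e, e, e] at h

theorem symb_zpow_left {A : Type*} [CommRing A] (a c : Aˣ) (k : ℤ) :
    symb ![a ^ k, c] = (k : ℚ) • symb ![a, c] := by
  have h := symb_update_zpow ![a, c] 0 a k
  have e : ∀ d : Aˣ, Function.update ![a, c] 0 d = ![d, c] := by
    intro d
    funext i
    fin_cases i <;> simp
  rwa [e, e] at h

theorem mem_unitPart_left {a c : Lˣ} (h : a ∈ oneUnits v) : symb ![a, c] ∈ unitPart v 2 :=
  mem_unitPart_of_oneUnit' v 0 ![a, c] h

theorem mem_unitPart_right {a c : Lˣ} (h : c ∈ oneUnits v) : symb ![a, c] ∈ unitPart v 2 :=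
  mem_unitPart_of_oneUnit' v 1 ![a, c] h

end Val

section Main

variable {L : Type*} [Field L] (v : Valuation L ℤᵐ⁰) (cf : ℂ →+* L)
  (hv : ∀ c : ℂ, c ≠ 0 → v (cf c) = 1)

include hv

theorem val_cf (c : ℂ) : v (cf c) ≤ 1 := by
  by_cases hc : c = 0
  · rw [hc, map_zero, map_zero]
    exact zero_le_one
  · exact (hv c hc).le

theorem val_eval {x : L} (hx : v x ≤ 1) (p : ℂ[X]) : v (p.eval₂ cf x) ≤ 1 := by
  rw [Polynomial.eval₂_eq_sum_range]
  refine Valuation.map_sum_le v fun i _ => ?_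
  rw [map_mul, map_pow]
  exact mul_le_one' (val_cf v cf hv _) (pow_le_one' hx _)

theorem val_eval_sub {x : L} (hx : v x ≤ 1) (p : ℂ[X]) {b : ℂ} (hb : v (x - cf b) < 1) :
    v (p.eval₂ cf x - cf (p.eval b)) < 1 := by
  obtain ⟨q, hq⟩ : X - C b ∣ p - C (p.eval b) := by
    rw [Polynomial.dvd_iff_isRoot, Polynomial.IsRoot.def]
    simp
  have h3 := congrArg (Polynomial.eval₂ cf x) hq
  rw [Polynomial.eval₂_sub, Polynomial.eval₂_mul, Polynomial.eval₂_sub,
    Polynomial.eval₂_X, Polynomial.eval₂_C, Polynomial.eval₂_C] at h3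
  rw [h3, map_mul]
  exact mul_lt_one_of_lt_of_le hb (val_eval v cf hv hx q)

/-- The polynomial `A` of degree at most `k`, divided by `x ^ k`, is integral at infinity. -/
theorem val_eval_div {x : L} (hx : 1 ≤ v x) {A : ℂ[X]} {k : ℕ} (hA : A.natDegree ≤ k) :
    v (A.eval₂ cf x / x ^ k) ≤ 1 := by
  have hv0 : 0 < v x := zero_lt_one.trans_le hx
  rw [map_div₀, map_pow, Polynomial.eval₂_eq_sum_range]
  refine div_le_one_of_le₀ ?_ zero_le
  refine Valuation.map_sum_le v fun i hi => ?_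
  rw [map_mul, map_pow]
  calc v (cf (A.coeff i)) * v x ^ i ≤ 1 * v x ^ i := mul_le_mul_left (val_cf v cf hv _) _
    _ = v x ^ i := one_mul _
    _ ≤ v x ^ k := by
      refine pow_le_pow_right₀ hx ?_
      rw [Finset.mem_range] at hi
      omega

variable {D P Q A B : ℂ[X]} {k : ℕ} (hPQ : P ^ 2 - D * Q ^ 2 = 1)
  (hAB : A ^ 2 - D * B ^ 2 = X ^ (2 * k)) (hA : A.natDegree ≤ k) {x y : L} (hx0 : x ≠ 0)
  (hy : y ^ 2 = D.eval₂ cf x) {Z₁ Z₂ : Lˣ} (hZ₁ : (Z₁ : L) = P.eval₂ cf x + Q.eval₂ cf x * y)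
  (hZ₂ : (Z₂ : L) * x ^ k = A.eval₂ cf x + B.eval₂ cf x * y)

include hPQ hy hZ₁ in
theorem val_Z₁ (hx : v x ≤ 1) : v (Z₁ : L) = 1 := by
  refine val_eq_one v Z₁.ne_zero (a := (C 2 * P).eval₂ cf x) (val_eval v cf hv hx _) ?_
  have h1 := congrArg (Polynomial.eval₂ cf x) hPQ
  rw [eval₂_sub, eval₂_mul, eval₂_pow, eval₂_pow, eval₂_one] at h1
  rw [eval₂_mul, eval₂_C, map_ofNat, hZ₁]
  linear_combination -h1 + Q.eval₂ cf x ^ 2 * hy

include hAB hy hZ₂ hx0 hA in
theorem val_Z₂ (hx : 1 ≤ v x) : v (Z₂ : L) = 1 := by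
  have hxk : x ^ k ≠ 0 := pow_ne_zero k hx0
  refine val_eq_one v Z₂.ne_zero (a := cf 2 * (A.eval₂ cf x / x ^ k)) ?_ ?_
  · rw [map_mul]
    exact mul_le_one' (val_cf v cf hv _) (val_eval_div v cf hv hx hA)
  · have h1 := congrArg (Polynomial.eval₂ cf x) hAB
    rw [eval₂_sub, eval₂_mul, eval₂_pow, eval₂_pow, eval₂_pow, eval₂_X] at h1
    have h2 : (x ^ k) ^ 2 = x ^ (2 * k) := by
      rw [← pow_mul]
      congr 1
      ring
    rw [← h2] at h1
    rw [map_ofNat]
    have h3 : (Z₂ : L) = (A.eval₂ cf x + B.eval₂ cf x * y) / x ^ k := by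
      rw [← hZ₂]
      field_simp
    rw [h3]
    field_simp
    linear_combination -h1 + B.eval₂ cf x ^ 2 * hy

include hPQ hAB hy hZ₁ hZ₂ in
/-- The residue of `Z₁ ^ p Z₂ ^ q` at a point with special `x`-coordinate is a root of unity. -/
theorem residue {p q : ℤ} {b : ℂ} (hb : Sp D P Q A B k p q b) (hx : v (x - cf b) < 1) :
    ∃ N : ℕ, N ≠ 0 ∧ v (((Z₁ ^ p * Z₂ ^ q : Lˣ) : L) ^ N - 1) < 1 := by
  obtain ⟨hb0, y₀, hy₀, N, hN, hζ⟩ := hb
  have hcfb : v (cf b) = 1 := hv b hb0
  have hvx : v x = 1 := by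
    have h1 : x = cf b + (x - cf b) := by ring
    rw [h1, Valuation.map_add_eq_of_lt_left v (by rw [hcfb]; exact hx), hcfb]
  have hsym : ∀ y₁ : ℂ, y₁ ^ 2 = D.eval b →
      ((P.eval b + Q.eval b * y₁) ^ p * ((A.eval b + B.eval b * y₁) / b ^ k) ^ q) ^ N = 1 →
      v (y - cf y₁) < 1 →
      ∃ N : ℕ, N ≠ 0 ∧ v (((Z₁ ^ p * Z₂ ^ q : Lˣ) : L) ^ N - 1) < 1 := by
    intro y₁ hy₁ hζ₁ hyy
    have h1 := congrArg (Polynomial.eval b) hPQ
    have h2 := congrArg (Polynomial.eval b) hAB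
    simp only [eval_sub, eval_mul, eval_pow, eval_X, eval_one] at h1 h2
    rw [← hy₁] at h1 h2
    have hbk : b ^ k ≠ 0 := pow_ne_zero k hb0
    have hw₁ : P.eval b + Q.eval b * y₁ ≠ 0 := by
      intro h3
      refine one_ne_zero (α := ℂ) ?_
      rw [← h1]
      linear_combination (P.eval b - Q.eval b * y₁) * h3
    have hw₂ : (A.eval b + B.eval b * y₁) / b ^ k ≠ 0 := by
      refine div_ne_zero (fun h3 => ?_) hbk
      refine pow_ne_zero (2 * k) hb0 ?_
      rw [← h2]
      linear_combination (A.eval b - B.eval b * y₁) * h3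
    have hvy : v y ≤ 1 := by
      have h3 : y = cf y₁ + (y - cf y₁) := by ring
      rw [h3]
      exact (v.map_add _ _).trans (max_le (val_cf v cf hv _) hyy.le)
    have hnum : ∀ S T : ℂ[X], v (S.eval₂ cf x + T.eval₂ cf x * y -
        cf (S.eval b + T.eval b * y₁)) < 1 := by
      intro S T
      have h3 : S.eval₂ cf x + T.eval₂ cf x * y - cf (S.eval b + T.eval b * y₁) =
          (S.eval₂ cf x - cf (S.eval b)) + ((T.eval₂ cf x - cf (T.eval b)) * y +
            cf (T.eval b) * (y - cf y₁)) := by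
        rw [map_add, map_mul]
        ring
      rw [h3]
      refine (v.map_add _ _).trans_lt (max_lt (val_eval_sub v cf hv hvx.le S hx) ?_)
      refine (v.map_add _ _).trans_lt (max_lt ?_ ?_)
      · rw [map_mul]
        exact mul_lt_one_of_lt_of_le (val_eval_sub v cf hv hvx.le T hx) hvy
      · rw [map_mul, mul_comm]
        exact mul_lt_one_of_lt_of_le hyy (val_cf v cf hv _)
    set W₁ : Lˣ := Units.map (cf : ℂ →* L) (Units.mk0 _ hw₁) with hW₁
    set W₂ : Lˣ := Units.map (cf : ℂ →* L) (Units.mk0 _ hw₂) with hW₂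
    have hu₁ : Z₁ / W₁ ∈ oneUnits v := by
      refine div_mem_oneUnits v (hv _ hw₁) ?_
      rw [hZ₁]
      exact hnum P Q
    have hu₂ : Z₂ / W₂ ∈ oneUnits v := by
      refine div_mem_oneUnits v (hv _ hw₂) ?_
      have h3 : v (x ^ k) = 1 := by rw [map_pow, hvx, one_pow]
      have h4 : ((Z₂ : L) - W₂) * x ^ k = (A.eval₂ cf x + B.eval₂ cf x * y -
          cf (A.eval b + B.eval b * y₁)) + W₂ * (cf (b ^ k) - x ^ k) := by
        have h5 : (W₂ : L) * cf (b ^ k) = cf (A.eval b + B.eval b * y₁) := by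
          show cf ((A.eval b + B.eval b * y₁) / b ^ k) * cf (b ^ k) = _
          rw [← map_mul]
          congr 1
          field_simp
        linear_combination hZ₂ - h5
      have h5 : v (((Z₂ : L) - W₂) * x ^ k) < 1 := by
        rw [h4]
        refine (v.map_add _ _).trans_lt (max_lt (hnum A B) ?_)
        rw [map_mul, mul_comm]
        refine mul_lt_one_of_lt_of_le ?_ (hv _ hw₂).le
        have h6 := val_eval_sub v cf hv hvx.le (X ^ k) hx
        rw [eval₂_pow, eval₂_X, eval_pow, eval_X] at h6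
        rw [Valuation.map_sub_swap]
        exact h6
      rwa [map_mul, h3, mul_one] at h5
    refine ⟨N, hN, ?_⟩
    have h6 : (W₁ ^ p * W₂ ^ q) ^ N = 1 := by
      refine Units.ext ?_
      rw [Units.val_pow_eq_pow_val, Units.val_mul, Units.val_zpow_eq_zpow_val,
        Units.val_zpow_eq_zpow_val, Units.val_one]
      show (cf (P.eval b + Q.eval b * y₁) ^ p * cf ((A.eval b + B.eval b * y₁) / b ^ k) ^ q) ^ N = 1
      rw [← map_zpow₀, ← map_zpow₀, ← map_mul, ← map_pow, hζ₁, map_one]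
    have h7 : (Z₁ ^ p * Z₂ ^ q) ^ N = ((Z₁ / W₁) ^ p * (Z₂ / W₂) ^ q) ^ N := by
      rw [← mul_one (((Z₁ / W₁) ^ p * (Z₂ / W₂) ^ q) ^ N), ← h6, ← mul_pow, div_zpow, div_zpow]
      congr 1
      rw [mul_mul_mul_comm, div_mul_cancel, div_mul_cancel]
    have h8 : (Z₁ ^ p * Z₂ ^ q) ^ N ∈ oneUnits v := by
      rw [h7]
      exact Subgroup.pow_mem _ (Subgroup.mul_mem _ (Subgroup.zpow_mem _ hu₁ p)
        (Subgroup.zpow_mem _ hu₂ q)) N
    rw [mem_oneUnits, Units.val_pow_eq_pow_val] at h8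
    exact h8
  have h1 : v ((y - cf y₀) * (y - cf (-y₀))) < 1 := by
    have h2 : (y - cf y₀) * (y - cf (-y₀)) = D.eval₂ cf x - cf (D.eval b) := by
      rw [← hy, ← hy₀, map_neg, map_pow]
      ring
    rw [h2]
    exact val_eval_sub v cf hv hvx.le D hx
  by_cases h2 : v (y - cf y₀) < 1
  · exact hsym y₀ hy₀ hζ h2
  · have h3 : v (y - cf (-y₀)) < 1 := by
      by_contra h4
      rw [map_mul] at h1
      exact absurd h1 (not_lt.2 (one_le_mul (not_lt.1 h2) (not_lt.1 h4)))
    refine hsym (-y₀) (by rw [neg_sq, hy₀]) ?_ h3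
    have h4 := congrArg (Polynomial.eval b) hPQ
    have h5 := congrArg (Polynomial.eval b) hAB
    simp only [eval_sub, eval_mul, eval_pow, eval_X, eval_one] at h4 h5
    rw [← hy₀] at h4 h5
    have hbk : b ^ k ≠ 0 := pow_ne_zero k hb0
    have h6 : P.eval b + Q.eval b * -y₀ = (P.eval b + Q.eval b * y₀)⁻¹ := by
      refine eq_inv_of_mul_eq_one_left ?_
      linear_combination h4
    have h7 : (A.eval b + B.eval b * -y₀) / b ^ k = ((A.eval b + B.eval b * y₀) / b ^ k)⁻¹ := by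
      refine eq_inv_of_mul_eq_one_left ?_
      have h8 : (b ^ k) ^ 2 = b ^ (2 * k) := by
        rw [← pow_mul]
        congr 1
        ring
      rw [← h8] at h5
      field_simp
      linear_combination h5
    rw [h6, h7, inv_zpow, inv_zpow, ← mul_inv, inv_pow, hζ, inv_one]

include hPQ hAB hA hx0 hy hZ₁ hZ₂ in
/-- The symbol is unramified. -/
theorem symb_mem {p q : ℤ} {b b' : ℂ} (hb : Sp D P Q A B k p q b)
    (hb' : Sp D P Q A B k p q b') {H c : Lˣ} (hxb' : x - cf b' ≠ 0)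
    (hH : (H : L) = (x - cf b) / (x - cf b')) (hc : (c : L) = cf (b' / b)) :
    (p : ℚ) • symb ![Z₁, H] + (q : ℚ) • symb ![Z₂, H * c] ∈ unitPart v 2 := by
  have hb0 := hb.1
  have hb0' := hb'.1
  have hvc : v (c : L) = 1 := by
    rw [hc]
    exact hv _ (div_ne_zero hb0' hb0)
  rcases lt_trichotomy (v x) 1 with hx | hx | hx
  · -- the points with `x = 0`
    have e1 : ∀ a : ℂ, a ≠ 0 → v (x - cf a) = 1 := by
      intro a ha
      rw [Valuation.map_sub_eq_of_lt_right v (by rw [hv a ha]; exact hx), hv a ha]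
    refine Submodule.add_mem _ (Submodule.smul_mem _ _ (mem_unitPart_of_units v
      (val_Z₁ v cf hv hPQ hy hZ₁ hx.le) ?_)) (Submodule.smul_mem _ _ (mem_unitPart_right v ?_))
    · rw [hH, map_div₀, e1 b hb0, e1 b' hb0', div_one]
    · rw [mem_oneUnits, Units.val_mul, hH, hc, map_div₀]
      have hcb : cf b ≠ 0 := (_root_.map_ne_zero cf).2 hb0
      have e2 : (x - cf b) / (x - cf b') * (cf b' / cf b) - 1 =
          x * cf (b' - b) / (cf b * (x - cf b')) := by
        rw [map_sub]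
        field_simp
        ring
      rw [e2, map_div₀, map_mul, map_mul, e1 b' hb0', hv b hb0, mul_one, div_one]
      exact mul_lt_one_of_lt_of_le hx (val_cf v cf hv _)
  · -- the other points
    have hz1 := val_Z₁ v cf hv hPQ hy hZ₁ hx.le
    have hz2 := val_Z₂ v cf hv hAB hA hx0 hy hZ₂ hx.ge
    have e1 : (p : ℚ) • symb ![Z₁, H] + (q : ℚ) • symb ![Z₂, H * c] =
        symb ![Z₁ ^ p * Z₂ ^ q, H] + (q : ℚ) • symb ![Z₂, c] := by
      rw [symb_mul_right, symb_mul_left, symb_zpow_left, symb_zpow_left, smul_add]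
      abel
    rw [e1]
    refine Submodule.add_mem _ ?_ (Submodule.smul_mem _ _ (mem_unitPart_of_units v hz2 hvc))
    have hle : ∀ a : ℂ, v (x - cf a) ≤ 1 := fun a =>
      (v.map_sub _ _).trans (max_le hx.le (val_cf v cf hv _))
    have hsp : ∀ a : ℂ, Sp D P Q A B k p q a → v (x - cf a) < 1 →
        symb ![Z₁ ^ p * Z₂ ^ q, H] ∈ unitPart v 2 := by
      intro a ha ha'
      obtain ⟨N, hN, h1⟩ := residue v cf hv hPQ hAB hy hZ₁ hZ₂ ha ha'
      exact mem_unitPart_of_pow v 0 ![Z₁ ^ p * Z₂ ^ q, H] hN h1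
    rcases (hle b).lt_or_eq with h1 | h1
    · exact hsp b hb h1
    rcases (hle b').lt_or_eq with h2 | h2
    · exact hsp b' hb' h2
    refine mem_unitPart_of_units v ?_ ?_
    · rw [Units.val_mul, Units.val_zpow_eq_zpow_val, Units.val_zpow_eq_zpow_val, map_mul,
        map_zpow₀, map_zpow₀, hz1, hz2, one_zpow, one_zpow, one_mul]
    · rw [hH, map_div₀, h1, h2, div_one]
  · -- the points at infinity
    have hz2 := val_Z₂ v cf hv hAB hA hx0 hy hZ₂ hx.le
    have hone : H ∈ oneUnits v := by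
      rw [mem_oneUnits, hH]
      have e : (x - cf b) / (x - cf b') - 1 = cf (b' - b) / (x - cf b') := by
        rw [map_sub]
        field_simp
        ring
      rw [e, map_div₀]
      have h1 : v (x - cf b') = v x :=
        Valuation.map_sub_eq_of_lt_left v ((val_cf v cf hv _).trans_lt hx)
      rw [h1, div_lt_one₀ (zero_lt_one.trans hx)]
      exact (val_cf v cf hv _).trans_lt hx
    rw [symb_mul_right, smul_add]
    exact Submodule.add_mem _ (Submodule.smul_mem _ _ (mem_unitPart_right v hone))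
      (Submodule.add_mem _ (Submodule.smul_mem _ _ (mem_unitPart_right v hone))
        (Submodule.smul_mem _ _ (mem_unitPart_of_units v hz2 hvc)))

end Main

section Symbol

open Pool.Agent.Y94.R (HRing HOpen hpol hy hy_eq toH hcst hx hz isUnit_hx coe_hx coe_hz)

open Pool.Agent.TH826.HD (UnramifiedOver)

variable {K : Type*} [Field K] {D P Q A B : K[X]} {k : ℕ} {n : ℕ} (b : Fin n → K)

theorem hw_mul (hAB : A ^ 2 - D * B ^ 2 = X ^ (2 * k)) {i₀ : Fin n} (h0 : b i₀ = 0) :
    (hw b hAB h0 : HOpen D b) * toH D b (hpol D X) ^ k =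
      toH D b (hpol D A + hpol D B * hy D) := by
  have h1 : (hx D b i₀ : HOpen D b) = toH D b (hpol D X) := by
    rw [coe_hx, h0, C_0, sub_zero]
  rw [← h1, ← Units.val_pow_eq_pow_val, ← Units.val_mul]
  unfold hw
  rw [div_mul_cancel]
  rfl

theorem coe_hcu {c : K} (hc : c ≠ 0) : (hcu D b c : HOpen D b) = hcst D b c := by
  unfold hcu
  rw [dif_neg hc]
  rfl

theorem map_symb2 {A' L : Type*} [CommRing A'] [CommRing L] (f : A' →+* L) (a c : A'ˣ) :
    KQ.map 2 f (symb ![a, c]) =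
      symb ![Units.map (f : A' →* L) a, Units.map (f : A' →* L) c] := by
  rw [KQ.map_symb]
  congr 1
  funext i
  fin_cases i <;> rfl

theorem map_hpol {L : Type*} [Field L] (f : HOpen D b →+* L) (p : K[X]) :
    f (toH D b (hpol D p)) = p.eval₂ (f.comp (hcst D b)) (f (toH D b (hpol D X))) := by
  have h : (f.comp (toH D b)).comp (hpol D) =
      Polynomial.eval₂RingHom (f.comp (hcst D b)) (f (toH D b (hpol D X))) := by
    refine Polynomial.ringHom_ext (fun a => ?_) ?_
    · rw [Polynomial.coe_eval₂RingHom, Polynomial.eval₂_C]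
      rfl
    · rw [Polynomial.coe_eval₂RingHom, Polynomial.eval₂_X]
      rfl
  exact congrArg (fun h : K[X] →+* L => h p) h

end Symbol

section UnrOver

open Pool.Agent.Y94.R (HRing HOpen hpol hy hy_eq toH hcst hx hz isUnit_hx coe_hx coe_hz)

open Pool.Agent.TH826.HD (UnramifiedOver)

variable {D P Q A B : ℂ[X]} {k : ℕ} {n : ℕ} (b : Fin n → ℂ)

/-- The symbols are unramified. -/
theorem sy_unramified (hPQ : P ^ 2 - D * Q ^ 2 = 1) (hAB : A ^ 2 - D * B ^ 2 = X ^ (2 * k))
    (hA : A.natDegree ≤ k) {i₀ : Fin n} (h0 : b i₀ = 0) {p q : ℤ} {i j : Fin n}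
    (hi : Sp D P Q A B k p q (b i)) (hj : Sp D P Q A B k p q (b j)) {L : Type*} [Field L]
    (f : HOpen D b →+* L) :
    KQ.map 2 f (sy b hPQ hAB h0 p q i j) ∈ UnramifiedOver (f.comp (hcst D b)) 2 := by
  unfold UnramifiedOver sy
  simp only [Submodule.mem_iInf]
  intro v _ hv
  rw [map_add, map_smul, map_smul, map_symb2, map_symb2, map_mul]
  have hxv : ∀ m, f (hx D b m : HOpen D b) = f (toH D b (hpol D X)) -
      (f.comp (hcst D b)) (b m) := by
    intro m
    rw [coe_hx, map_hpol, Polynomial.eval₂_sub, Polynomial.eval₂_X, Polynomial.eval₂_C]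
  have hne : ∀ m, f (toH D b (hpol D X)) - (f.comp (hcst D b)) (b m) ≠ 0 := by
    intro m
    rw [← hxv]
    exact ((hx D b m).isUnit.map f).ne_zero
  have hx0 : f (toH D b (hpol D X)) ≠ 0 := by
    have h1 := hne i₀
    rwa [h0, map_zero, sub_zero] at h1
  refine symb_mem v (f.comp (hcst D b)) hv hPQ hAB hA hx0 (y := f (toH D b (hy D))) ?_ ?_ ?_
    hi hj (hne j) ?_ ?_
  · rw [← map_pow, ← map_pow, hy_eq, map_hpol]
  · show f (hz b hPQ : HOpen D b) = _
    rw [coe_hz, map_add, map_add, map_mul, map_mul, map_hpol, map_hpol b f Q]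
  · show f (hw b hAB h0 : HOpen D b) * _ = _
    rw [← map_pow, ← map_mul, hw_mul, map_add, map_add, map_mul, map_mul, map_hpol,
      map_hpol b f B]
  · show f ((hx D b i / hx D b j : (HOpen D b)ˣ) : HOpen D b) = _
    rw [eq_div_iff (hne j), ← hxv, ← hxv, ← map_mul, ← Units.val_mul, div_mul_cancel]
  · show f (hcu D b (b j / b i) : HOpen D b) = _
    rw [coe_hcu b (div_ne_zero hj.1 hi.1)]
    rfl

end UnrOver

end Pool.Agent.T9h73.TP
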