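import Pool.Agent.T9h73.TP.Reg
import Pool.Agent.Y94.R.Asm
set_option autoImplicit false

/-!
Assembly.
-/

namespace Pool.Agent.T9h73.TP

open Polynomial

open Pool.Agent.TH826.MK (KQ Torus symb)

open Pool.Agent.Y94.R (Lp Pell HRing HOpen hpol hy toH hcst hx hz Ic)

/-- A set of vectors with trivial annihilator contains a basis. -/
theorem exists_basis {m : ℕ} (T : Set (Fin m → ℝ))
    (h : ∀ c : Fin m → ℝ, (∀ x ∈ T, ∑ l, c l * x l = 0) → c = 0) :
    ∃ x : Fin m → (Fin m → ℝ), (∀ i, x i ∈ T) ∧ LinearIndependent ℝ x := by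
  obtain ⟨x, hx, hli⟩ := Pool.Agent.Y94.R.exists_indep (n := m) (k := 0) T
    (id : (Fin m → ℝ) → (Fin m → ℝ)) 0 (add_zero m) (by
      have h1 : Pool.Agent.Y94.R.Ann T (id : (Fin m → ℝ) → (Fin m → ℝ)) 0 = ⊥ := by
        rw [Submodule.eq_bot_iff]
        intro c hc
        refine h c fun x hx => ?_
        have h2 := hc x hx
        simpa using h2
      rw [h1, finrank_bot])
  refine ⟨x, hx, ?_⟩
  simpa using hli

theorem off_root {D : ℂ[X]} (γ : Lp D) {β : ℂ} (hβ : D.eval β = 0) : γ.Off β := by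
  intro t h1
  have h2 := γ.eq t
  rw [sub_eq_zero.1 h1, hβ] at h2
  exact γ.ne t (pow_eq_zero_iff two_ne_zero |>.1 h2)

variable {D P Q r A B s : ℂ[X]} {k m : ℕ}

theorem sp_root (hPQ : P ^ 2 - D * Q ^ 2 = 1) (hAB : A ^ 2 - D * B ^ 2 = X ^ (2 * k))
    {β : ℂ} (hβ0 : β ≠ 0) (hβ : D.eval β = 0) (p q : ℤ) : Sp D P Q A B k p q β := by
  refine ⟨hβ0, 0, by rw [hβ, zero_pow two_ne_zero], 2, two_ne_zero, ?_⟩
  have h1 := congrArg (Polynomial.eval β) hPQ
  have h2 := congrArg (Polynomial.eval β) hAB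
  simp only [eval_sub, eval_mul, eval_pow, eval_X, eval_one, hβ, zero_mul, sub_zero] at h1 h2
  have h3 : (A.eval β / β ^ k) ^ 2 = 1 := by
    rw [div_pow, h2, ← pow_mul, mul_comm k 2, div_self (pow_ne_zero _ hβ0)]
  have h4 : ∀ (w : ℂ) (n : ℤ), w ^ 2 = 1 → (w ^ n) ^ 2 = 1 := by
    intro w n hw
    rw [← zpow_natCast, ← zpow_mul, mul_comm, zpow_mul, zpow_natCast, hw, one_zpow]
  rw [mul_zero, mul_zero, add_zero, add_zero, mul_pow, h4 _ _ h1, h4 _ _ h3, one_mul]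

/-- The independent vectors. -/
theorem core (γ : Fin m → Lp D) (hD : Squarefree D) (h : Pell D P Q r) (hu : Un D A B s k)
    (hx : ∀ l t, (γ l).x t ≠ 0)
    (hind : ∀ c : Fin m → ℝ, c ≠ 0 → ∃ j < r.natDegree, Ic γ c (X ^ j) ≠ 0) (β : ℂ) :
    ∃ (b : Fin m → ℂ) (p q : Fin m → ℤ), (∀ i, p i ≠ 0 ∧ q i ≠ 0) ∧ (∀ i l, (γ l).Off (b i)) ∧
      (∀ i, Sp D P Q A B k (p i) (q i) (b i)) ∧
      LinearIndependent ℝ fun (i : Fin m) (l : Fin m) =>
        (p i : ℝ) * ((γ l).rho P Q (b i) - (γ l).rho P Q β) +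
        (q i : ℝ) * (rhoU A B k (γ l) (b i) - rhoU A B k (γ l) β) := by
  obtain ⟨x, hxT, hli⟩ := exists_basis {x : Fin m → ℝ | ∃ (b : ℂ) (p q : ℤ),
    (p ≠ 0 ∧ q ≠ 0) ∧ (∀ l, (γ l).Off b) ∧ Sp D P Q A B k p q b ∧ x = fun l =>
      (p : ℝ) * ((γ l).rho P Q b - (γ l).rho P Q β) +
        (q : ℝ) * (rhoU A B k (γ l) b - rhoU A B k (γ l) β)} (by
    intro c hc
    by_contra hc0
    obtain ⟨j, hj, hjc⟩ := hind c hc0
    refine hjc (periods_zero γ c hD h hu hx (κ₁ := F1 P Q γ c β) (κ₂ := F2 A B k γ c β) ?_ j hj)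
    intro p q b hp hq hb hsp
    have h1 := hc _ ⟨b, p, q, ⟨hp, hq⟩, hb, hsp, rfl⟩
    rw [← h1]
    unfold F1 F2
    rw [← Finset.sum_sub_distrib, ← Finset.sum_sub_distrib, Finset.mul_sum, Finset.mul_sum,
      ← Finset.sum_add_distrib]
    refine Finset.sum_congr rfl fun l _ => ?_
    ring)
  choose b p q h0 h1 h2 h3 using hxT
  refine ⟨b, p, q, h0, h1, h2, ?_⟩
  have h4 : (fun (i : Fin m) (l : Fin m) =>
        (p i : ℝ) * ((γ l).rho P Q (b i) - (γ l).rho P Q β) +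
        (q i : ℝ) * (rhoU A B k (γ l) (b i) - rhoU A B k (γ l) β)) = x :=
    funext fun i => (h3 i).symm
  rw [h4]
  exact hli

theorem exists_r (hPQ : P ^ 2 - D * Q ^ 2 = 1) : ∃ r : ℂ[X], derivative P = r * Q := by
  have h1 := congrArg derivative hPQ
  simp only [derivative_sub, derivative_mul, derivative_pow, derivative_one] at h1
  have h4 : C ((2 : ℕ) : ℂ) = (C 2 : ℂ[X]) := by norm_num
  rw [h4] at h1
  simp only [Nat.add_one_sub_one, pow_one] at h1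
  have h3 : (C (1 / 2) : ℂ[X]) * C 2 = 1 := by
    rw [← C_mul]
    norm_num
  refine ⟨P * (C (1 / 2) * (derivative D * Q + C 2 * D * derivative Q)) -
    D * Q * derivative P, ?_⟩
  linear_combination (-derivative P) * hPQ + (C (1 / 2) * P) * h1 -
    (P ^ 2 * derivative P) * h3

theorem exists_s (hAB : A ^ 2 - D * B ^ 2 = X ^ (2 * k)) (hk : 0 < k) (hA0 : A.eval 0 ≠ 0) :
    ∃ s : ℂ[X], X * derivative A - C (k : ℂ) * A = s * B := by
  have h1 := congrArg derivative hAB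
  have h2 : X * derivative (X ^ (2 * k) : ℂ[X]) = C (2 * k : ℂ) * X ^ (2 * k) := by
    rw [derivative_X_pow]
    obtain ⟨j, hj⟩ : ∃ j, 2 * k = j + 1 := ⟨2 * k - 1, by omega⟩
    have h3 : ((2 * k : ℕ) : ℂ) = 2 * (k : ℂ) := by push_cast; ring
    rw [← h3, hj, Nat.add_sub_cancel]
    ring
  rw [← h1, ← hAB] at h2
  simp only [derivative_sub, derivative_mul, derivative_pow] at h2
  have h3 : (C (1 / 2) : ℂ[X]) * C 2 = 1 := by
    rw [← C_mul]
    norm_num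
  have h4 : C ((2 : ℕ) : ℂ) = (C 2 : ℂ[X]) := by norm_num
  rw [h4, C_mul] at h2
  simp only [Nat.add_one_sub_one, pow_one] at h2
  have hcop : IsCoprime A (X ^ (2 * k) : ℂ[X]) := by
    refine IsCoprime.pow_right ?_
    have h5 : IsCoprime (X - C 0 : ℂ[X]) A :=
      ((irreducible_X_sub_C (0 : ℂ)).coprime_iff_not_dvd).2
        (fun h6 => hA0 (dvd_iff_isRoot.1 h6))
    rw [C_0, sub_zero] at h5
    exact h5.symm
  obtain ⟨u, w, huw⟩ := hcop
  have hcop2 : IsCoprime A B := ⟨u + w * A, -(w * D * B), by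
    rw [← huw, ← hAB]
    ring⟩
  have hdvd : B ∣ A * (X * derivative A - C (k : ℂ) * A) := by
    refine ⟨C (1 / 2) * (X * derivative D) * B + X * D * derivative B - C (k : ℂ) * D * B, ?_⟩
    have h5 : C (2 : ℂ) * (A * (X * derivative A - C (k : ℂ) * A)) = C (2 : ℂ) *
        (B * (C (1 / 2) * (X * derivative D) * B + X * D * derivative B -
          C (k : ℂ) * D * B)) := by
      linear_combination h2 - X * derivative D * B ^ 2 * h3
    exact mul_left_cancel₀ (C_ne_zero.2 two_ne_zero) h5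
  obtain ⟨s, hs⟩ := hcop2.symm.dvd_of_dvd_mul_left hdvd
  exact ⟨s, by rw [hs, mul_comm]⟩

end Pool.Agent.T9h73.TP
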