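import Mathlib
set_option autoImplicit false

/-!
Wirtinger derivatives along lines, and polarisation of identities between holomorphic and
antiholomorphic functions.
-/

namespace Pool.Agent.T9h73.TP

open scoped ComplexConjugate Topology

/-- The function `F` has the derivative `α w + β w̄` at `b` in all directions `w`. -/
def Wd (F : ℂ → ℂ) (α β b : ℂ) : Prop :=
  ∀ w : ℂ, HasDerivAt (fun t : ℝ => F (b + t * w)) (α * w + β * conj w) 0

variable {F G : ℂ → ℂ} {α β α' β' b : ℂ}

theorem Wd.add (h : Wd F α β b) (h' : Wd G α' β' b) :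
    Wd (fun b => F b + G b) (α + α') (β + β') b := fun w => by
  refine ((h w).add (h' w)).congr_deriv ?_
  ring

theorem Wd.sub (h : Wd F α β b) (h' : Wd G α' β' b) :
    Wd (fun b => F b - G b) (α - α') (β - β') b := fun w => by
  refine ((h w).sub (h' w)).congr_deriv ?_
  ring

theorem Wd.mul (h : Wd F α β b) (h' : Wd G α' β' b) :
    Wd (fun b => F b * G b) (α * G b + F b * α') (β * G b + F b * β') b := fun w => by
  refine ((h w).mul (h' w)).congr_deriv ?_
  simp only [Complex.ofReal_zero, zero_mul, add_zero]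
  ring

theorem Wd.const_mul (c : ℂ) (h : Wd F α β b) :
    Wd (fun b => c * F b) (c * α) (c * β) b := fun w => by
  refine ((h w).const_mul c).congr_deriv ?_
  ring

theorem hasDerivAt_line (b w : ℂ) (t : ℝ) : HasDerivAt (fun t : ℝ => b + t * w) w t := by
  have h1 : HasDerivAt (fun t : ℝ => (t : ℂ)) 1 t := Complex.ofRealCLM.hasDerivAt
  simpa using (h1.mul_const w).const_add b

theorem Wd.of_hasDerivAt (h : HasDerivAt F α b) : Wd F α 0 b := fun w => by
  have h1 := hasDerivAt_line b w 0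
  have h2 : HasDerivAt F α (b + ((0 : ℝ) : ℂ) * w) := by simpa using h
  refine (h2.comp_of_eq (0 : ℝ) h1 rfl).congr_deriv ?_
  ring

theorem Wd.conj (h : Wd F α β b) :
    Wd (fun b => (starRingEnd ℂ) (F b)) ((starRingEnd ℂ) β) ((starRingEnd ℂ) α) b := fun w => by
  have h1 := (Complex.conjCLE.toContinuousLinearMap.hasFDerivAt
    (x := F (b + ((0 : ℝ) : ℂ) * w))).comp_hasDerivAt (0 : ℝ) (h w)
  refine h1.congr_deriv ?_
  change (starRingEnd ℂ) (α * w + β * (starRingEnd ℂ) w) = _
  rw [map_add, map_mul, map_mul, Complex.conj_conj]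
  ring

theorem Wd.of_re {f : ℂ → ℝ} {l : ℂ}
    (h : ∀ w : ℂ, HasDerivAt (fun t : ℝ => f (b + t * w)) (w * l).re 0) :
    Wd (fun b => (f b : ℂ)) (1 / 2 * l) (1 / 2 * (starRingEnd ℂ) l) b := fun w => by
  refine (h w).ofReal_comp.congr_deriv ?_
  rw [Complex.re_eq_add_conj, map_mul]
  ring

theorem Wd.of_im {f : ℂ → ℝ} {l : ℂ}
    (h : ∀ w : ℂ, HasDerivAt (fun t : ℝ => f (b + t * w)) (w * l).im 0) :
    Wd (fun b => (f b : ℂ)) (-Complex.I / 2 * l) (Complex.I / 2 * (starRingEnd ℂ) l) b :=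
  fun w => by
  refine (h w).ofReal_comp.congr_deriv ?_
  rw [Complex.im_eq_sub_conj, map_mul]
  have h1 : Complex.I ≠ 0 := Complex.I_ne_zero
  field_simp
  linear_combination (w * l - (starRingEnd ℂ) w * (starRingEnd ℂ) l) * Complex.I_sq

theorem Wd.eq_zero (h : Wd F α β b) (h0 : ∀ᶠ a in 𝓝 b, F a = 0) : α = 0 ∧ β = 0 := by
  have h1 : ∀ w : ℂ, α * w + β * conj w = 0 := by
    intro w
    have h2 : HasDerivAt (fun t : ℝ => F (b + t * w)) 0 0 := by
      refine (hasDerivAt_const (0 : ℝ) (0 : ℂ)).congr_of_eventuallyEq ?_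
      have h3 := (hasDerivAt_line b w 0).continuousAt.tendsto
      simp only [Complex.ofReal_zero, zero_mul, add_zero] at h3
      exact h3.eventually h0
    exact (h w).unique h2
  have h2 := h1 1
  have h3 := h1 Complex.I
  simp only [map_one, Complex.conj_I, mul_one] at h2 h3
  have h4 : Complex.I * (α - β) = 0 := by linear_combination h3
  have h5 := (mul_eq_zero.1 h4).resolve_left Complex.I_ne_zero
  constructor
  · linear_combination (1 / 2) * h2 + (1 / 2) * h5
  · linear_combination (1 / 2) * h2 - (1 / 2) * h5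

theorem Wd.sum {ι : Type*} (s : Finset ι) {F : ι → ℂ → ℂ} {α β : ι → ℂ}
    (h : ∀ i ∈ s, Wd (F i) (α i) (β i) b) :
    Wd (fun b => ∑ i ∈ s, F i b) (∑ i ∈ s, α i) (∑ i ∈ s, β i) b := fun w => by
  refine (HasDerivAt.fun_sum fun i hi => h i hi w).congr_deriv ?_
  rw [Finset.sum_mul, Finset.sum_mul, Finset.sum_add_distrib]

/-- Polarisation. -/
theorem polar {ι : Type*} (s : Finset ι) (f g : ι → ℂ → ℂ) {ε : ℝ} (hε : 0 < ε)
    (hf : ∀ i ∈ s, DifferentiableOn ℂ (f i) (Metric.ball 0 ε))
    (hg : ∀ i ∈ s, DifferentiableOn ℂ (g i) (Metric.ball 0 ε))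
    (h : ∀ b ∈ Metric.ball (0 : ℂ) ε, ∑ i ∈ s, f i b * conj (g i b) = 0) :
    ∀ c ∈ Metric.ball (0 : ℂ) ε, ∑ i ∈ s, f i 0 * conj (g i c) = 0 := by
  have hgn : ∀ n, ∀ i ∈ s, DifferentiableOn ℂ (iteratedDeriv n (g i)) (Metric.ball 0 ε) := by
    intro n
    induction n with
    | zero =>
      intro i hi
      rw [iteratedDeriv_zero]
      exact hg i hi
    | succ n ih =>
      intro i hi
      rw [iteratedDeriv_succ]
      exact (ih i hi).deriv Metric.isOpen_ball
  have hn : ∀ n, ∀ b ∈ Metric.ball (0 : ℂ) ε,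
      ∑ i ∈ s, f i b * conj (iteratedDeriv n (g i) b) = 0 := by
    intro n
    induction n with
    | zero =>
      intro b hb
      simpa only [iteratedDeriv_zero] using h b hb
    | succ n ih =>
      intro b hb
      have hb' := Metric.isOpen_ball.mem_nhds hb
      have h1 : ∀ i ∈ s, Wd (fun b => f i b * conj (iteratedDeriv n (g i) b))
          (deriv (f i) b * conj (iteratedDeriv n (g i) b) + f i b * conj (0 : ℂ))
          (0 * conj (iteratedDeriv n (g i) b) + f i b * conj (deriv (iteratedDeriv n (g i)) b))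
          b := fun i hi =>
        (Wd.of_hasDerivAt ((hf i hi).differentiableAt hb').hasDerivAt).mul
          (Wd.of_hasDerivAt ((hgn n i hi).differentiableAt hb').hasDerivAt).conj
      have h2 := ((Wd.sum s h1).eq_zero (Filter.eventually_of_mem hb' ih)).2
      rw [← h2]
      refine Finset.sum_congr rfl fun i _ => ?_
      rw [iteratedDeriv_succ]
      ring
  intro c hc
  have h1 : HasSum (fun n : ℕ => ∑ i ∈ s, conj (f i 0) *
      ((n.factorial : ℂ)⁻¹ • (c - 0) ^ n • iteratedDeriv n (g i) 0))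
      (∑ i ∈ s, conj (f i 0) * g i c) :=
    hasSum_sum fun i hi => (Complex.hasSum_taylorSeries_on_ball (hg i hi) hc).mul_left _
  have h2 : (fun n : ℕ => ∑ i ∈ s, conj (f i 0) *
      ((n.factorial : ℂ)⁻¹ • (c - 0) ^ n • iteratedDeriv n (g i) 0)) = fun _ => 0 := by
    funext n
    have h3 := congrArg conj (hn n 0 (Metric.mem_ball_self hε))
    simp only [map_sum, map_mul, Complex.conj_conj, map_zero] at h3
    calc ∑ i ∈ s, conj (f i 0) *
        ((n.factorial : ℂ)⁻¹ • (c - 0) ^ n • iteratedDeriv n (g i) 0) =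
        ((n.factorial : ℂ)⁻¹ * (c - 0) ^ n) *
          ∑ i ∈ s, conj (f i 0) * iteratedDeriv n (g i) 0 := by
          rw [Finset.mul_sum]
          refine Finset.sum_congr rfl fun i _ => ?_
          simp only [smul_eq_mul]
          ring
      _ = 0 := by rw [h3, mul_zero]
  rw [h2] at h1
  have h3 := h1.unique hasSum_zero
  have h4 := congrArg conj h3
  simpa only [map_sum, map_mul, Complex.conj_conj, map_zero] using h4

end Pool.Agent.T9h73.TP
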