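import Pool.Agent.T9h73.TP.Cont
import Pool.Agent.T9h73.TP.Wir
set_option autoImplicit false

/-!
The branches of the functions `y`, `P + Q y` and `(A + B y) / x ^ k` near `x = 0`.
-/

namespace Pool.Agent.T9h73.TP

open Polynomial Filter

open Pool.Agent.Y94.R (Lp Pell hasDerivAt_log_norm)

open scoped Topology

/-- A branch of `y = √D(x)` near `x = 0`. -/
structure Br (D : ℂ[X]) (Y : ℂ → ℂ) (ε : ℝ) : Prop where
  pos : 0 < ε
  sq : ∀ b ∈ Metric.ball (0 : ℂ) ε, Y b ^ 2 = D.eval b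
  ne : ∀ b ∈ Metric.ball (0 : ℂ) ε, Y b ≠ 0
  der : ∀ b ∈ Metric.ball (0 : ℂ) ε, HasDerivAt Y ((derivative D).eval b / (2 * Y b)) b

theorem exists_branch {D : ℂ[X]} (h : D.eval 0 ≠ 0) {U : Set ℂ} (hU : U ∈ 𝓝 (0 : ℂ)) :
    ∃ (Y : ℂ → ℂ) (ε : ℝ), Br D Y ε ∧ Metric.ball 0 ε ⊆ U := by
  obtain ⟨y₀, hy₀⟩ := IsAlgClosed.exists_pow_nat_eq (D.eval 0) two_pos
  have hy0 : y₀ ≠ 0 := by
    rintro rfl
    rw [zero_pow two_ne_zero] at hy₀
    exact h hy₀.symm
  have h1 : ContinuousAt (fun b => D.eval b / D.eval 0) 0 :=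
    D.continuous.continuousAt.div_const _
  have h2 : ∀ᶠ b in 𝓝 (0 : ℂ), D.eval b / D.eval 0 ∈ Complex.slitPlane := by
    refine h1.eventually_mem (Complex.isOpen_slitPlane.mem_nhds ?_)
    simp only [div_self h]
    exact Complex.one_mem_slitPlane
  obtain ⟨ε, hε, h3⟩ := Metric.eventually_nhds_iff_ball.1 (h2.and hU)
  refine ⟨fun b => y₀ * Complex.exp (1 / 2 * Complex.log (D.eval b / D.eval 0)), ε,
    ⟨hε, ?_, ?_, ?_⟩, fun b hb => (h3 b hb).2⟩
  · intro b hb
    have h4 := (h3 b hb).1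
    have h5 : D.eval b / D.eval 0 ≠ 0 := Complex.slitPlane_ne_zero h4
    rw [mul_pow, hy₀, ← Complex.exp_nat_mul]
    have h6 : ((2 : ℕ) : ℂ) * (1 / 2 * Complex.log (D.eval b / D.eval 0)) =
        Complex.log (D.eval b / D.eval 0) := by
      push_cast
      ring
    rw [h6, Complex.exp_log h5]
    field_simp
  · intro b _
    exact mul_ne_zero hy0 (Complex.exp_ne_zero _)
  · intro b hb
    have h4 := (h3 b hb).1
    have h5 : D.eval b / D.eval 0 ≠ 0 := Complex.slitPlane_ne_zero h4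
    have h6 : D.eval b ≠ 0 := fun h7 => h5 (by rw [h7, zero_div])
    have h7 := ((((D.hasDerivAt b).div_const (D.eval 0)).clog h4).const_mul
      (1 / 2)).cexp.const_mul y₀
    refine h7.congr_deriv ?_
    set E := Complex.exp (1 / 2 * Complex.log (D.eval b / D.eval 0)) with hE
    have h8 : (y₀ * E) ^ 2 = D.eval b := by
      rw [mul_pow, hy₀, hE, ← Complex.exp_nat_mul]
      have h6 : ((2 : ℕ) : ℂ) * (1 / 2 * Complex.log (D.eval b / D.eval 0)) =
          Complex.log (D.eval b / D.eval 0) := by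
        push_cast
        ring
      rw [h6, Complex.exp_log h5]
      field_simp
    have hE0 : E ≠ 0 := Complex.exp_ne_zero _
    have h9 : y₀ * E ≠ 0 := mul_ne_zero hy0 hE0
    field_simp
    linear_combination (derivative D).eval b * h8

variable {D P Q r A B s : ℂ[X]} {k : ℕ} {Y : ℂ → ℂ} {ε : ℝ}

section

variable (hY : Br D Y ε)

variable (P Q) (Y) in
/-- the branch of `P + Q y` -/
noncomputable def z1 (b : ℂ) : ℂ := P.eval b + Q.eval b * Y b

variable (A B) (k) (Y) in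
/-- the branch of `(A + B y) / x ^ k` -/
noncomputable def z2 (b : ℂ) : ℂ := (A.eval b + B.eval b * Y b) / b ^ k

include hY

theorem z1_ne (h : Pell D P Q r) {b : ℂ} (hb : b ∈ Metric.ball (0 : ℂ) ε) :
    z1 P Q Y b ≠ 0 := by
  have h1 := congrArg (Polynomial.eval b) h.eq
  simp only [eval_sub, eval_pow, eval_mul, eval_one] at h1
  rw [← hY.sq b hb] at h1
  refine left_ne_zero_of_mul_eq_one (b := P.eval b - Q.eval b * Y b) ?_
  unfold z1
  linear_combination h1

theorem z2_ne (h : Un D A B s k) {b : ℂ} (hb : b ∈ Metric.ball (0 : ℂ) ε) (hb0 : b ≠ 0) :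
    z2 A B k Y b ≠ 0 := by
  have h1 := congrArg (Polynomial.eval b) h.eq
  simp only [eval_sub, eval_pow, eval_mul, eval_X] at h1
  rw [← hY.sq b hb] at h1
  have h2 : (A.eval b + B.eval b * Y b) * (A.eval b - B.eval b * Y b) = b ^ (2 * k) := by
    linear_combination h1
  refine div_ne_zero (fun h3 => ?_) (pow_ne_zero k hb0)
  rw [h3, zero_mul] at h2
  exact pow_ne_zero _ hb0 h2.symm

theorem hasDerivAt_z1 (h : Pell D P Q r) {b : ℂ} (hb : b ∈ Metric.ball (0 : ℂ) ε) :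
    HasDerivAt (z1 P Q Y) (r.eval b / Y b * z1 P Q Y b) b := by
  refine ((P.hasDerivAt b).add ((Q.hasDerivAt b).mul (hY.der b hb))).congr_deriv ?_
  have h4 := congrArg (Polynomial.eval b) h.mul_r
  have h5 := congrArg (Polynomial.eval b) h.der
  simp only [eval_add, eval_mul, eval_C] at h4 h5
  have h6 := hY.ne b hb
  have h7 := hY.sq b hb
  unfold z1
  rw [h5]
  field_simp
  linear_combination (-2 : ℂ) * h4 + 2 * (derivative Q).eval b * h7

theorem hasDerivAt_z2 (h : Un D A B s k) {b : ℂ} (hb : b ∈ Metric.ball (0 : ℂ) ε)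
    (hb0 : b ≠ 0) :
    HasDerivAt (z2 A B k Y) (s.eval b / (b * Y b) * z2 A B k Y b) b := by
  refine (((A.hasDerivAt b).add ((B.hasDerivAt b).mul (hY.der b hb))).div (hasDerivAt_pow k b)
    (pow_ne_zero k hb0)).congr_deriv ?_
  have h4 := congrArg (Polynomial.eval b) h.mul_s
  have h5 := congrArg (Polynomial.eval b) h.der
  simp only [eval_add, eval_sub, eval_mul, eval_C, eval_X] at h4 h5
  have h6 := hY.ne b hb
  have h7 := hY.sq b hb
  unfold z2
  obtain ⟨j, hj⟩ : ∃ j, k = j + 1 := ⟨k - 1, by have := h.pos; omega⟩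
  simp only [Pi.add_apply, Pi.mul_apply]
  subst hj
  rw [Nat.add_sub_cancel, pow_succ b j]
  have h9 : b ^ j ≠ 0 := pow_ne_zero j hb0
  field_simp
  linear_combination 2 * Y b * h5 - 2 * h4 +
    (2 * (derivative B).eval b * b - 2 * ((j + 1 : ℕ) : ℂ) * B.eval b) * h7

variable (P Q) (Y) in
/-- the logarithm of the absolute value of the branch of `P + Q y` -/
noncomputable def L1 (b : ℂ) : ℝ := Real.log ‖z1 P Q Y b‖

variable (A B) (k) (Y) in
/-- the logarithm of the absolute value of the branch of `(A + B y) / x ^ k` -/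
noncomputable def L2 (b : ℂ) : ℝ := Real.log ‖z2 A B k Y b‖

omit hY in
/-- the logarithm of the absolute value along lines -/
theorem hasDerivAt_log_line {z : ℂ → ℂ} {l b : ℂ} (hz : HasDerivAt z (l * z b) b)
    (hz0 : z b ≠ 0) (w : ℂ) :
    HasDerivAt (fun t : ℝ => Real.log ‖z (b + t * w)‖) (w * l).re 0 := by
  have h1 : HasDerivAt (fun t : ℝ => z (b + t * w)) (l * z b * w) 0 := by
    have h2 : HasDerivAt z (l * z b) (b + ((0 : ℝ) : ℂ) * w) := by simpa using hz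
    exact h2.comp_of_eq (0 : ℝ) (hasDerivAt_line b w 0) rfl
  have h3 : z (b + ((0 : ℝ) : ℂ) * w) ≠ 0 := by simpa using hz0
  refine (hasDerivAt_log_norm h1 h3).congr_deriv ?_
  rw [show b + ((0 : ℝ) : ℂ) * w = b by simp]
  congr 1
  field_simp

theorem wd_L1 (h : Pell D P Q r) {b : ℂ} (hb : b ∈ Metric.ball (0 : ℂ) ε) :
    Wd (fun b => (L1 P Q Y b : ℂ)) (1 / 2 * (r.eval b / Y b))
      (1 / 2 * (starRingEnd ℂ) (r.eval b / Y b)) b :=
  Wd.of_re fun w => hasDerivAt_log_line (hasDerivAt_z1 hY h hb) (z1_ne hY h hb) w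

theorem wd_L2 (h : Un D A B s k) {b : ℂ} (hb : b ∈ Metric.ball (0 : ℂ) ε) (hb0 : b ≠ 0) :
    Wd (fun b => (L2 A B k Y b : ℂ)) (1 / 2 * (s.eval b / (b * Y b)))
      (1 / 2 * (starRingEnd ℂ) (s.eval b / (b * Y b))) b :=
  Wd.of_re fun w =>
    hasDerivAt_log_line (hasDerivAt_z2 hY h hb hb0) (z2_ne hY h hb hb0) w

theorem continuousAt_L1 (h : Pell D P Q r) {b : ℂ} (hb : b ∈ Metric.ball (0 : ℂ) ε) :
    ContinuousAt (L1 P Q Y) b :=
  (hasDerivAt_z1 hY h hb).continuousAt.norm.log (norm_ne_zero_iff.2 (z1_ne hY h hb))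

theorem continuousAt_L2 (h : Un D A B s k) {b : ℂ} (hb : b ∈ Metric.ball (0 : ℂ) ε)
    (hb0 : b ≠ 0) : ContinuousAt (L2 A B k Y) b :=
  (hasDerivAt_z2 hY h hb hb0).continuousAt.norm.log (norm_ne_zero_iff.2 (z2_ne hY h hb hb0))

end

end Pool.Agent.T9h73.TP
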