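import Pool.Agent.T9h73.TP.Un
set_option autoImplicit false

/-!
Continuity of the regulator integrals in the parameter `b`.
-/

namespace Pool.Agent.T9h73.TP

open Polynomial MeasureTheory Set Filter

open Pool.Agent.Y94.R (Lp Pell)

open scoped Interval Topology

/-- Continuity of a parametric integral. -/
theorem continuousAt_integral {F : ℂ → ℝ → ℝ} {b₀ : ℂ} {ε : ℝ} (hε : 0 < ε)
    (hF : ContinuousOn (fun p : ℂ × ℝ => F p.1 p.2) (Metric.closedBall b₀ ε ×ˢ univ)) :
    ContinuousAt (fun b => ∫ s in (0 : ℝ)..1, F b s) b₀ := by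
  have hK : IsCompact (Metric.closedBall b₀ ε ×ˢ Icc (0 : ℝ) 1) :=
    (isCompact_closedBall b₀ ε).prod isCompact_Icc
  obtain ⟨C, hC⟩ := hK.exists_bound_of_continuousOn
    (hF.mono (prod_mono_right (subset_univ _)))
  have hsub : Ι (0 : ℝ) 1 ⊆ Icc 0 1 := by
    rw [uIoc_of_le zero_le_one]
    exact Ioc_subset_Icc_self
  refine intervalIntegral.continuousAt_of_dominated_interval (bound := fun _ => C) ?_ ?_ ?_ ?_
  · filter_upwards [Metric.closedBall_mem_nhds b₀ hε] with b hb
    have h2 : ContinuousOn (fun s : ℝ => (b, s)) univ :=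
      (Continuous.prodMk continuous_const continuous_id).continuousOn
    have h3 : Continuous (F b) :=
      continuousOn_univ.1 (hF.comp h2 fun s hs => ⟨hb, hs⟩)
    exact h3.aestronglyMeasurable
  · filter_upwards [Metric.closedBall_mem_nhds b₀ hε] with b hb
    exact Filter.Eventually.of_forall fun s hs => hC (b, s) ⟨hb, hsub hs⟩
  · exact intervalIntegrable_const
  · refine Filter.Eventually.of_forall fun s _ => ?_
    have h1 : ContinuousAt (fun p : ℂ × ℝ => F p.1 p.2) (b₀, s) :=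
      hF.continuousAt (prod_mem_nhds (Metric.closedBall_mem_nhds b₀ hε) univ_mem)
    have h2 : ContinuousAt (fun b : ℂ => (b, s)) b₀ :=
      continuousAt_id.prodMk continuousAt_const
    exact h1.comp (f := fun b : ℂ => (b, s)) h2

variable {D : ℂ[X]} (γ : Lp D)

theorem continuousAt_gen {z dz : ℝ → ℂ} {f : ℂ → ℝ} {b₀ : ℂ} (hz : Continuous z)
    (hz0 : ∀ s, z s ≠ 0) (hdz : Continuous dz) (hb : γ.Off b₀)
    (hf' : ∃ ε > 0, ContinuousOn f (Metric.closedBall b₀ ε)) :
    ContinuousAt (fun b => ∫ s in (0 : ℝ)..1,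
      (Real.log ‖z s‖ * (deriv γ.x s / (γ.x s - b)).im -
        (Real.log ‖γ.x s - b‖ - f b) * (dz s).im)) b₀ := by
  obtain ⟨ε₁, hε₁, h1⟩ := γ.exists_ball hb
  obtain ⟨ε₂, hε₂, h2⟩ := hf'
  have hlz : Continuous fun s => Real.log ‖z s‖ :=
    Continuous.log hz.norm fun s => norm_ne_zero_iff.2 (hz0 s)
  refine continuousAt_integral (ε := min ε₁ ε₂) (lt_min hε₁ hε₂) ?_
  have hne : ∀ p ∈ Metric.closedBall b₀ (min ε₁ ε₂) ×ˢ (univ : Set ℝ), γ.x p.2 - p.1 ≠ 0 :=
    fun p hp => h1 p.1 (Metric.closedBall_subset_closedBall (min_le_left _ _) hp.1) p.2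
  have hxb : Continuous fun p : ℂ × ℝ => γ.x p.2 - p.1 :=
    (γ.continuous_x.comp continuous_snd).sub continuous_fst
  refine ContinuousOn.sub ?_ ?_
  · exact (hlz.comp continuous_snd).continuousOn.mul
      (Complex.continuous_im.comp_continuousOn
        ((γ.continuous_dx.comp continuous_snd).continuousOn.div hxb.continuousOn hne))
  · refine ContinuousOn.mul (ContinuousOn.sub ?_ ?_)
      (Complex.continuous_im.comp (hdz.comp continuous_snd)).continuousOn
    · exact ContinuousOn.log hxb.norm.continuousOn fun p hp => norm_ne_zero_iff.2 (hne p hp)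
    · exact h2.comp continuousOn_fst fun p hp =>
        Metric.closedBall_subset_closedBall (min_le_right _ _) hp.1

theorem continuousAt_rho {P Q r : ℂ[X]} (h : Pell D P Q r) {b : ℂ} (hb : γ.Off b) :
    ContinuousAt (γ.rho P Q) b := by
  have h1 := continuousAt_gen γ (f := fun _ => 0) (γ.continuous_z (P := P) (Q := Q)) (γ.z_ne h)
    (γ.continuous_dz (r := r)) hb ⟨1, one_pos, continuousOn_const⟩
  unfold Lp.rho
  simp only [γ.deriv_z h]
  simpa only [sub_zero] using h1

theorem continuousAt_rhoU {A B s : ℂ[X]} {k : ℕ} (hx : ∀ t, γ.x t ≠ 0) (h : Un D A B s k)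
    {b : ℂ} (hb : γ.Off b) (hb0 : b ≠ 0) : ContinuousAt (rhoU A B k γ) b := by
  have h0 : ∀ a : ℂ, a ≠ 0 → ContinuousAt (fun b : ℂ => Real.log ‖b‖) a := fun a ha =>
    continuousAt_id.norm.log (norm_ne_zero_iff.2 ha)
  obtain ⟨ε, hε, h2⟩ := Metric.isOpen_iff.1 (isOpen_compl_singleton (x := (0 : ℂ))) b hb0
  have h1 := continuousAt_gen γ (f := fun b => Real.log ‖b‖)
    (contDiff_zU (A := A) (B := B) (k := k) γ hx).continuous (zU_ne γ hx h)
    (continuous_dzU (s := s) γ hx) hb
    ⟨ε / 2, half_pos hε, fun a ha => (h0 a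
      (h2 (Metric.closedBall_subset_ball (half_lt_self hε) ha))).continuousWithinAt⟩
  unfold rhoU
  simp only [deriv_zU γ hx h]
  exact h1

end Pool.Agent.T9h73.TP
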