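import Pool.Agent.Y94.R.Loc
set_option autoImplicit false

/-!
The first order differential equation `D' f / 2 + D f' = - n` has no rational solutions that vanish
at infinity, except for zero, if `D` is squarefree.
-/

namespace Pool.Agent.T9h73.TP

open Polynomial

open Pool.Agent.Y94.R (WW WW_mul exists_WW)

/-- The numerator of the equation at a simple zero of `D`. -/
theorem WW_zero (D1 t1 n S : ℂ[X]) (β : ℂ) (e : ℕ)
    (h : WW ((X - C β) * D1) ((X - C β) ^ (e + 1) * t1) n S = 0) :
    D1.eval β * S.eval β * t1.eval β = 0 := by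
  have h1 : derivative ((X - C β) ^ (e + 1) * t1) =
      (X - C β) ^ e * (C ((e : ℂ) + 1) * t1 + (X - C β) * derivative t1) := by
    rw [derivative_mul, derivative_X_sub_C_pow, Nat.add_sub_cancel]
    push_cast
    rw [map_add, map_natCast, C_1]
    ring
  have h2 : derivative ((X - C β) * D1) = D1 + (X - C β) * derivative D1 := by
    rw [derivative_mul, derivative_sub, derivative_X, derivative_C]
    ring
  have h3 : WW ((X - C β) * D1) ((X - C β) ^ (e + 1) * t1) n S = (X - C β) ^ (e + 1) *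
      (n * (X - C β) ^ (e + 1) * t1 ^ 2 +
        C (1 / 2) * (D1 + (X - C β) * derivative D1) * S * t1 +
        D1 * (derivative S * ((X - C β) * t1) -
          S * (C ((e : ℂ) + 1) * t1 + (X - C β) * derivative t1))) := by
    unfold WW
    rw [h1, h2]
    ring
  rw [h3] at h
  have h4 := (mul_eq_zero.1 h).resolve_left (pow_ne_zero _ (X_sub_C_ne_zero β))
  have h5 := congrArg (Polynomial.eval β) h4
  simp only [eval_add, eval_sub, eval_mul, eval_pow, eval_X, eval_C, eval_zero, sub_self,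
    zero_mul, mul_zero, add_zero, zero_pow (Nat.succ_ne_zero e), mul_zero, zero_add,
    zero_sub] at h5
  have h6 : (1 / 2 - ((e : ℂ) + 1)) ≠ 0 := by
    intro h7
    have h8 : ((2 * e + 1 : ℕ) : ℂ) = 0 := by
      push_cast
      linear_combination (-2 : ℂ) * h7
    exact absurd h8 (by exact_mod_cast Nat.succ_ne_zero (2 * e))
  refine (mul_eq_zero.1 (show (1 / 2 - ((e : ℂ) + 1)) * (D1.eval β * S.eval β * t1.eval β) = 0
    from ?_)).resolve_left h6
  linear_combination h5

/-- A rational solution `R / r` of the differential equation that vanishes at infinity is zero. -/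
theorem eq_zero_of_WW {D r n R : ℂ[X]} (hD : Squarefree D) (hr : r ≠ 0)
    (hdeg : R.degree < r.degree) (h : WW D r n R = 0) : R = 0 := by
  by_contra hR
  obtain ⟨s, S, t, hS, ht, hcop⟩ : ∃ s S t : ℂ[X], R = s * S ∧ r = s * t ∧ IsCoprime S t := by
    classical
    have hg : EuclideanDomain.gcd R r ≠ 0 := fun h0 => hR (EuclideanDomain.gcd_eq_zero_iff.1 h0).1
    obtain ⟨S, hS⟩ := EuclideanDomain.gcd_dvd_left R r
    obtain ⟨t, ht⟩ := EuclideanDomain.gcd_dvd_right R r
    refine ⟨EuclideanDomain.gcd R r, S, t, hS, ht, ?_⟩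
    have h1 := EuclideanDomain.gcd_eq_gcd_ab R r
    refine ⟨EuclideanDomain.gcdA R r, EuclideanDomain.gcdB R r, ?_⟩
    refine mul_left_cancel₀ hg ?_
    rw [mul_one]
    conv_rhs => rw [h1]
    linear_combination (-EuclideanDomain.gcdA R r) * hS + (-EuclideanDomain.gcdB R r) * ht
  have hs0 : s ≠ 0 := by
    rintro rfl
    exact hR (by rw [hS, zero_mul])
  have ht0 : t ≠ 0 := by
    rintro rfl
    exact hr (by rw [ht, mul_zero])
  have hS0 : S ≠ 0 := by
    rintro rfl
    exact hR (by rw [hS, mul_zero])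
  have htd : 0 < t.natDegree := by
    rw [hS, ht, degree_mul, degree_mul, degree_eq_natDegree hs0, degree_eq_natDegree ht0,
      degree_eq_natDegree hS0] at hdeg
    have h1 : s.natDegree + S.natDegree < s.natDegree + t.natDegree := by exact_mod_cast hdeg
    omega
  obtain ⟨β, hβ⟩ : ∃ β, t.eval β = 0 := by
    have h1 : t.degree ≠ 0 := by
      rw [degree_eq_natDegree ht0]
      exact_mod_cast htd.ne'
    exact IsAlgClosed.exists_root t h1
  rw [hS, ht, WW_mul] at h
  have hW := (mul_eq_zero.1 h).resolve_left (pow_ne_zero 2 hs0)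
  have hSβ : S.eval β ≠ 0 := by
    intro h1
    obtain ⟨a, b, hab⟩ := hcop
    have h2 := congrArg (Polynomial.eval β) hab
    rw [eval_add, eval_mul, eval_mul, h1, hβ, mul_zero, mul_zero, add_zero, eval_one] at h2
    exact zero_ne_one h2
  obtain ⟨t1, ht1, ht1β⟩ := exists_eq_pow_rootMultiplicity_mul_and_not_dvd t ht0 β
  have ht1β' : t1.eval β ≠ 0 := fun h2 => ht1β (dvd_iff_isRoot.2 h2)
  have hppos : 0 < rootMultiplicity β t := (rootMultiplicity_pos ht0).2 hβ
  obtain ⟨p', hp'⟩ : ∃ p', rootMultiplicity β t = p' + 1 :=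
    ⟨rootMultiplicity β t - 1, by omega⟩
  rw [hp'] at ht1
  rw [ht1] at hW
  obtain ⟨W1, hW1, hW1β⟩ := exists_WW D t1 n S β p'
  have h1 : W1 = 0 := by
    rw [hW1] at hW
    exact (mul_eq_zero.1 hW).resolve_left (pow_ne_zero _ (X_sub_C_ne_zero β))
  rw [h1, eval_zero] at hW1β
  have h2 : D.eval β = 0 := by
    by_contra h3
    refine absurd hW1β.symm (neg_ne_zero.2 (mul_ne_zero (mul_ne_zero (mul_ne_zero h3 hSβ) ?_)
      ht1β'))
    exact_mod_cast Nat.succ_ne_zero p'
  obtain ⟨D1, hD1⟩ := dvd_iff_isRoot.2 h2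
  have h3 : D1.eval β ≠ 0 := by
    intro h4
    obtain ⟨D2, hD2⟩ := dvd_iff_isRoot.2 h4
    exact Polynomial.not_isUnit_X_sub_C β (hD _ ⟨D2, by rw [hD1, hD2]; ring⟩)
  rw [hD1] at hW
  exact mul_ne_zero (mul_ne_zero h3 hSβ) ht1β' (WW_zero D1 t1 n S β p' hW)

end Pool.Agent.T9h73.TP
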