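import Pool.Agent.T9h73.TP.Branch
import Pool.Agent.T9h73.TP.Rat
set_option autoImplicit false

/-!
A real combination of the loops that is orthogonal to all special vectors has vanishing periods.
-/

namespace Pool.Agent.T9h73.TP

open Polynomial Filter Set

open Pool.Agent.Y94.R (Lp Pell Jc J0c J1c Ic RR NN nF WW)

open scoped Topology ComplexConjugate

/-- The roots of unity are dense in the unit circle. -/
theorem frequently_root {w : ℂ} (hw : ‖w‖ = 1) {U : Set ℂ} (hU : U ∈ 𝓝 w) :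
    ∃ ζ ∈ U, ∃ N : ℕ, N ≠ 0 ∧ ζ ^ N = 1 := by
  have h1 : Complex.exp (Complex.arg w * Complex.I) = w := by
    have h2 := Complex.norm_mul_exp_arg_mul_I w
    rwa [hw, Complex.ofReal_one, one_mul] at h2
  have h2 : Tendsto (fun q : ℝ => Complex.exp ((2 * Real.pi * q : ℝ) * Complex.I))
      (𝓝 (Complex.arg w / (2 * Real.pi))) (𝓝 w) := by
    have h3 : Continuous fun q : ℝ => Complex.exp ((2 * Real.pi * q : ℝ) * Complex.I) :=
      Complex.continuous_exp.comp ((Complex.continuous_ofReal.comp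
        (continuous_const.mul continuous_id)).mul continuous_const)
    have h4 := h3.tendsto (Complex.arg w / (2 * Real.pi))
    rwa [mul_div_cancel₀ _ (by positivity : (2 * Real.pi : ℝ) ≠ 0), h1] at h4
  obtain ⟨q, hq⟩ := (Rat.denseRange_cast (𝕜 := ℝ)).exists_mem_open
    (isOpen_interior (s := (fun q : ℝ => Complex.exp ((2 * Real.pi * q : ℝ) * Complex.I)) ⁻¹' U))
    ⟨_, mem_interior_iff_mem_nhds.2 (h2 hU)⟩
  have hq' : (q : ℝ) ∈ (fun q : ℝ => Complex.exp ((2 * Real.pi * q : ℝ) * Complex.I)) ⁻¹' U :=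
    interior_subset hq
  refine ⟨_, hq', q.den, q.den_pos.ne', ?_⟩
  simp only
  rw [← Complex.exp_nat_mul, Complex.exp_eq_one_iff]
  refine ⟨q.num, ?_⟩
  have h5 : (q : ℝ) * q.den = q.num := by exact_mod_cast Rat.mul_den_eq_num q
  have h6 : ((q : ℝ) : ℂ) * (q.den : ℂ) = (q.num : ℂ) := by exact_mod_cast h5
  push_cast at h6 ⊢
  linear_combination 2 * Real.pi * Complex.I * h6

/-- The point `b` is special for the exponents `p` and `q`: the value of
`(P + Q y) ^ p ((A + B y) / x ^ k) ^ q` at a point with `x = b` is a root of unity. -/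
def Sp (D P Q A B : ℂ[X]) (k : ℕ) (p q : ℤ) (b : ℂ) : Prop :=
  b ≠ 0 ∧ ∃ y : ℂ, y ^ 2 = D.eval b ∧ ∃ N : ℕ, N ≠ 0 ∧
    ((P.eval b + Q.eval b * y) ^ p * ((A.eval b + B.eval b * y) / b ^ k) ^ q) ^ N = 1

/-- Two polynomials that agree on a nonempty open set are equal. -/
theorem eq_of_nhds {p q : ℂ[X]} {b : ℂ} (h : ∀ᶠ a in 𝓝 b, p.eval a = q.eval a) : p = q := by
  refine Polynomial.eq_of_infinite_eval_eq p q ?_
  exact infinite_of_mem_nhds b h

variable {D P Q r A B s : ℂ[X]} {k m : ℕ} (γ : Fin m → Lp D) (c : Fin m → ℝ)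

variable (P Q) in
/-- the combination of the first regulators -/
noncomputable def F1 (b : ℂ) : ℝ := ∑ l, c l * (γ l).rho P Q b

variable (A B k) in
/-- the combination of the second regulators -/
noncomputable def F2 (b : ℂ) : ℝ := ∑ l, c l * rhoU A B k (γ l) b

theorem continuousAt_F1 (h : Pell D P Q r) {b : ℂ} (hb : ∀ l, (γ l).Off b) :
    ContinuousAt (F1 P Q γ c) b :=
  tendsto_finsetSum _ fun l _ => (continuousAt_rho (γ l) h (hb l)).const_mul (c l)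

theorem continuousAt_F2 (hu : Un D A B s k) (hx : ∀ l t, (γ l).x t ≠ 0) {b : ℂ}
    (hb : ∀ l, (γ l).Off b) (hb0 : b ≠ 0) : ContinuousAt (F2 A B k γ c) b :=
  tendsto_finsetSum _ fun l _ => (continuousAt_rhoU (γ l) (hx l) hu (hb l) hb0).const_mul (c l)

theorem exists_seg {U : Set ℂ} (hU : IsOpen U) {b : ℂ} (hb : b ∈ U) (w : ℂ) :
    ∃ ε > 0, ∀ t ∈ Metric.closedBall (0 : ℝ) ε, b + t * w ∈ U := by
  have h1 : ContinuousAt (fun t : ℝ => b + t * w) 0 := (hasDerivAt_line b w 0).continuousAt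
  have h2 : ∀ᶠ t : ℝ in 𝓝 0, b + t * w ∈ U := by
    refine h1.eventually_mem (hU.mem_nhds ?_)
    simpa using hb
  obtain ⟨ε, hε, h3⟩ := Metric.eventually_nhds_iff_ball.1 h2
  exact ⟨ε / 2, half_pos hε, fun t ht =>
    h3 t (Metric.closedBall_subset_ball (half_lt_self hε) ht)⟩

theorem wd_F1 (h : Pell D P Q r) {b : ℂ} (hb : ∀ l, (γ l).Off b) :
    Wd (fun b => (F1 P Q γ c b : ℂ)) (-Complex.I / 2 * Jc γ c r b)
      (Complex.I / 2 * (starRingEnd ℂ) (Jc γ c r b)) b := by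
  refine Wd.of_im fun w => ?_
  obtain ⟨ε, hε, h1⟩ := exists_seg (Pool.Agent.Y94.R.isOpen_off_all γ) (show b ∈ _ from hb) w
  have h2 : ∀ l ∈ Finset.univ, HasDerivAt (fun t : ℝ => c l * (γ l).rho P Q (b + t * w))
      (c l * (w * (γ l).J r (b + ((0 : ℝ) : ℂ) * w)).im) 0 := fun l _ =>
    ((γ l).hasDerivAt_rho h hε (β := fun t : ℝ => b + t * w) (β' := fun _ => w)
      (fun t _ => hasDerivAt_line b w t) continuousOn_const fun t ht => h1 t ht l).const_mul (c l)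
  refine (HasDerivAt.fun_sum h2).congr_deriv ?_
  unfold Jc
  rw [Finset.mul_sum, Complex.im_sum]
  refine Finset.sum_congr rfl fun l _ => ?_
  rw [show b + ((0 : ℝ) : ℂ) * w = b by simp, show w * ((c l : ℂ) * (γ l).J r b) =
    (c l : ℂ) * (w * (γ l).J r b) by ring, Complex.im_ofReal_mul]

theorem wd_F2 (hu : Un D A B s k) (hx : ∀ l t, (γ l).x t ≠ 0) {b : ℂ}
    (hb : ∀ l, (γ l).Off b) (hb0 : b ≠ 0) :
    Wd (fun b => (F2 A B k γ c b : ℂ)) (-Complex.I / 2 * (Jc γ c s b / b))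
      (Complex.I / 2 * (starRingEnd ℂ) (Jc γ c s b / b)) b := by
  refine Wd.of_im fun w => ?_
  obtain ⟨ε, hε, h1⟩ := exists_seg (Pool.Agent.Y94.R.isOpen_off_all γ) (show b ∈ _ from hb) w
  have h2 : ∀ l ∈ Finset.univ, HasDerivAt (fun t : ℝ => c l * rhoU A B k (γ l) (b + t * w))
      (c l * (w * ((γ l).J s (b + ((0 : ℝ) : ℂ) * w) / (b + ((0 : ℝ) : ℂ) * w))).im) 0 :=
    fun l _ => (hasDerivAt_rhoU (γ l) (hx l) hu hε (β := fun t : ℝ => b + t * w)
      (β' := fun _ => w) (fun t _ => hasDerivAt_line b w t) continuousOn_const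
      (fun t ht => h1 t ht l) (by simpa using hb0)).const_mul (c l)
  refine (HasDerivAt.fun_sum h2).congr_deriv ?_
  unfold Jc
  rw [Finset.sum_div, Finset.mul_sum, Complex.im_sum]
  refine Finset.sum_congr rfl fun l _ => ?_
  rw [show b + ((0 : ℝ) : ℂ) * w = b by simp, show w * ((c l : ℂ) * (γ l).J s b / b) =
    (c l : ℂ) * (w * ((γ l).J s b / b)) by ring, Complex.im_ofReal_mul]

section Near

variable {Y : ℂ → ℂ} {ε : ℝ} (h : Pell D P Q r) (hu : Un D A B s k)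
  (hx : ∀ l t, (γ l).x t ≠ 0) (hY : Br D Y ε)
  (hoff : ∀ b ∈ Metric.ball (0 : ℂ) ε, ∀ l, (γ l).Off b)

include h hu hY

/-- There are no multiplicative relations between the two units. -/
theorem no_rel {a₁ a₂ b₀ : ℂ} (hb : b₀ ∈ Metric.ball (0 : ℂ) ε) (hb0 : b₀ ≠ 0)
    (hrel : ∀ᶠ b in 𝓝 b₀, a₁ * (r.eval b / Y b) + a₂ * (s.eval b / (b * Y b)) = 0) :
    a₁ = 0 ∧ a₂ = 0 := by
  have h1 : C a₁ * (X * r) = C (-a₂) * s := by
    refine eq_of_nhds (b := b₀) ?_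
    filter_upwards [hrel, Metric.isOpen_ball.mem_nhds hb,
      isOpen_compl_singleton.mem_nhds (show b₀ ∈ ({0} : Set ℂ)ᶜ from hb0)] with b h2 h3 h4
    have h5 := hY.ne b h3
    have h6 : b ≠ 0 := h4
    simp only [eval_mul, eval_C, eval_X]
    field_simp at h2
    linear_combination h2
  have h2 := congrArg (Polynomial.eval 0) h1
  simp only [eval_mul, eval_C, eval_X, zero_mul, mul_zero] at h2
  have h3 : a₂ = 0 := by
    have h4 := (mul_eq_zero.1 h2.symm).resolve_right hu.s_ne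
    exact neg_eq_zero.1 h4
  refine ⟨?_, h3⟩
  rw [h3, neg_zero, C_0, zero_mul] at h1
  have h4 := (mul_eq_zero.1 h1).resolve_right (mul_ne_zero X_ne_zero h.r_ne)
  exact C_eq_zero.1 h4

include hx hoff

/-- The relation at the points where the two logarithms have a rational ratio. -/
theorem rel_of_rat {κ₁ κ₂ : ℝ}
    (hS : ∀ (p q : ℤ) (b : ℂ), p ≠ 0 → q ≠ 0 → (∀ l, (γ l).Off b) → Sp D P Q A B k p q b →
      (p : ℝ) * (F1 P Q γ c b - κ₁) + q * (F2 A B k γ c b - κ₂) = 0)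
    {p q : ℤ} (hp : p ≠ 0) (hq : q ≠ 0) {b₀ : ℂ} (hb : b₀ ∈ Metric.ball (0 : ℂ) ε)
    (hb0 : b₀ ≠ 0) (hL : (p : ℝ) * L1 P Q Y b₀ + q * L2 A B k Y b₀ = 0) :
    (p : ℝ) * (F1 P Q γ c b₀ - κ₁) + q * (F2 A B k γ c b₀ - κ₂) = 0 := by
  set Z : ℂ → ℂ := fun b => z1 P Q Y b ^ p * z2 A B k Y b ^ q with hZ
  have hU : Metric.ball (0 : ℂ) ε ∩ {0}ᶜ ∈ 𝓝 b₀ :=
    Filter.inter_mem (Metric.isOpen_ball.mem_nhds hb)
      (isOpen_compl_singleton.mem_nhds (show b₀ ∈ ({0} : Set ℂ)ᶜ from hb0))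
  have hder : ∀ b ∈ Metric.ball (0 : ℂ) ε ∩ {0}ᶜ, HasDerivAt Z
      ((p * (r.eval b / Y b) + q * (s.eval b / (b * Y b))) * Z b) b := by
    intro b hb
    have e1 := z1_ne hY h hb.1
    have e2 := z2_ne hY hu hb.1 hb.2
    have h1 := (hasDerivAt_zpow p (z1 P Q Y b) (Or.inl e1)).comp b (hasDerivAt_z1 hY h hb.1)
    have h2 := (hasDerivAt_zpow q (z2 A B k Y b) (Or.inl e2)).comp b
      (hasDerivAt_z2 hY hu hb.1 hb.2)
    refine (h1.mul h2).congr_deriv ?_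
    simp only [Function.comp_apply, hZ]
    rw [zpow_sub_one₀ e1, zpow_sub_one₀ e2]
    field_simp
  have hZne : ∀ b ∈ Metric.ball (0 : ℂ) ε ∩ {0}ᶜ, Z b ≠ 0 := fun b hb =>
    mul_ne_zero (zpow_ne_zero _ (z1_ne hY h hb.1)) (zpow_ne_zero _ (z2_ne hY hu hb.1 hb.2))
  have hnorm : ‖Z b₀‖ = 1 := by
    have e1 := norm_ne_zero_iff.2 (z1_ne hY h hb)
    have e2 := norm_ne_zero_iff.2 (z2_ne hY hu hb hb0)
    refine Real.eq_one_of_pos_of_log_eq_zero (norm_pos_iff.2 (hZne b₀ ⟨hb, hb0⟩)) ?_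
    simp only [hZ]
    rw [norm_mul, norm_zpow, norm_zpow, Real.log_mul (zpow_ne_zero _ e1) (zpow_ne_zero _ e2),
      Real.log_zpow, Real.log_zpow]
    exact hL
  have hopen : IsOpen (Metric.ball (0 : ℂ) ε ∩ {0}ᶜ) :=
    Metric.isOpen_ball.inter isOpen_compl_singleton
  have hdiff : DifferentiableOn ℂ Z (Metric.ball (0 : ℂ) ε ∩ {0}ᶜ) := fun b hb =>
    (hder b hb).differentiableAt.differentiableWithinAt
  have han : AnalyticAt ℂ Z b₀ := hdiff.analyticAt hU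
  rcases han.eventually_constant_or_nhds_le_map_nhds with hc | hmap
  · exfalso
    have h1 : ∀ᶠ b in 𝓝 b₀,
        (p : ℂ) * (r.eval b / Y b) + (q : ℂ) * (s.eval b / (b * Y b)) = 0 := by
      filter_upwards [hc.eventually_nhds, hU] with b h2 h3
      have h4 : HasDerivAt Z 0 b := (hasDerivAt_const b (Z b₀)).congr_of_eventuallyEq h2
      exact (mul_eq_zero.1 ((hder b h3).unique h4)).resolve_right (hZne b h3)
    exact hp (by exact_mod_cast (no_rel h hu hY hb hb0 h1).1)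
  · by_contra hne
    have hcont : ContinuousAt (fun b => (p : ℝ) * (F1 P Q γ c b - κ₁) +
        q * (F2 A B k γ c b - κ₂)) b₀ :=
      (((continuousAt_F1 γ c h (hoff b₀ hb)).sub continuousAt_const).const_mul _).add
        (((continuousAt_F2 γ c hu hx (hoff b₀ hb) hb0).sub continuousAt_const).const_mul _)
    have hV := Filter.inter_mem (hcont.eventually_ne hne) hU
    obtain ⟨ζ, ⟨b, ⟨hb1, hb2⟩, hbζ⟩, N, hN, hζ⟩ := frequently_root hnorm
      (hmap (image_mem_map hV))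
    refine hb1 (hS p q b hp hq (hoff b hb2.1) ⟨hb2.2, Y b, hY.sq b hb2.1, N, hN, ?_⟩)
    rw [← hζ, ← hbζ]
    rfl

/-- The relation between the logarithms and the regulators near `x = 0`. -/
theorem rel {κ₁ κ₂ : ℝ}
    (hS : ∀ (p q : ℤ) (b : ℂ), p ≠ 0 → q ≠ 0 → (∀ l, (γ l).Off b) → Sp D P Q A B k p q b →
      (p : ℝ) * (F1 P Q γ c b - κ₁) + q * (F2 A B k γ c b - κ₂) = 0)
    {b₀ : ℂ} (hb : b₀ ∈ Metric.ball (0 : ℂ) ε) (hb0 : b₀ ≠ 0) :
    L2 A B k Y b₀ * (F1 P Q γ c b₀ - κ₁) - L1 P Q Y b₀ * (F2 A B k γ c b₀ - κ₂) = 0 := by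
  by_contra hne
  have hcont : ContinuousAt (fun b₀ => L2 A B k Y b₀ * (F1 P Q γ c b₀ - κ₁) -
      L1 P Q Y b₀ * (F2 A B k γ c b₀ - κ₂)) b₀ :=
    ((continuousAt_L2 hY hu hb hb0).mul
      ((continuousAt_F1 γ c h (hoff b₀ hb)).sub continuousAt_const)).sub
    ((continuousAt_L1 hY h hb).mul
      ((continuousAt_F2 γ c hu hx (hoff b₀ hb) hb0).sub continuousAt_const))
  have hU : Metric.ball (0 : ℂ) ε ∩ {0}ᶜ ∈ 𝓝 b₀ :=
    Filter.inter_mem (Metric.isOpen_ball.mem_nhds hb)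
      (isOpen_compl_singleton.mem_nhds (show b₀ ∈ ({0} : Set ℂ)ᶜ from hb0))
  obtain ⟨δ₀, hδ₀, hball₀⟩ := Metric.eventually_nhds_iff_ball.1
    ((hcont.eventually_ne hne).and hU)
  -- a point where both logarithms are not zero
  obtain ⟨b₁, hb₁, hb₁L⟩ : ∃ b₁ ∈ Metric.ball b₀ δ₀, L1 P Q Y b₁ ≠ 0 := by
    by_contra hcon
    push Not at hcon
    refine one_ne_zero (α := ℂ) (no_rel (a₁ := 1) (a₂ := 0) h hu hY hb hb0 ?_).1
    filter_upwards [Metric.isOpen_ball.mem_nhds (Metric.mem_ball_self hδ₀)] with b hb1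
    obtain ⟨-, hbU⟩ := hball₀ b hb1
    have h2 : ∀ᶠ a in 𝓝 b, (L1 P Q Y a : ℂ) = 0 := by
      filter_upwards [Metric.isOpen_ball.mem_nhds hb1] with a ha
      rw [hcon a ha, Complex.ofReal_zero]
    have h3 := ((wd_L1 hY h hbU.1).eq_zero h2).1
    linear_combination 2 * h3
  have hb₁U := (hball₀ b₁ hb₁).2
  obtain ⟨δ₁, hδ₁, hball₁⟩ := Metric.eventually_nhds_iff_ball.1
    (((continuousAt_L1 hY h hb₁U.1).eventually_ne hb₁L).and
      (Metric.isOpen_ball.mem_nhds hb₁))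
  obtain ⟨b₂, hb₂, hb₂L⟩ : ∃ b₂ ∈ Metric.ball b₁ δ₁, L2 A B k Y b₂ ≠ 0 := by
    by_contra hcon
    push Not at hcon
    refine one_ne_zero (α := ℂ) (no_rel (a₁ := 0) (a₂ := 1) h hu hY hb₁U.1 hb₁U.2 ?_).2
    filter_upwards [Metric.isOpen_ball.mem_nhds (Metric.mem_ball_self hδ₁)] with b hb1
    obtain ⟨-, hbU⟩ := hball₀ b (hball₁ b hb1).2
    have h2 : ∀ᶠ a in 𝓝 b, (L2 A B k Y a : ℂ) = 0 := by
      filter_upwards [Metric.isOpen_ball.mem_nhds hb1] with a ha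
      rw [hcon a ha, Complex.ofReal_zero]
    have h3 := ((wd_L2 hY hu hbU.1 hbU.2).eq_zero h2).1
    linear_combination 2 * h3
  have hb₂U := (hball₀ b₂ (hball₁ b₂ hb₂).2).2
  obtain ⟨δ, hδ, hball'⟩ := Metric.eventually_nhds_iff_ball.1
    (((continuousAt_L2 hY hu hb₂U.1 hb₂U.2).eventually_ne hb₂L).and
      (Metric.isOpen_ball.mem_nhds hb₂))
  have hL2 : ∀ b ∈ Metric.ball b₂ δ, L2 A B k Y b ≠ 0 := fun b hb => (hball' b hb).1
  have hL1 : ∀ b ∈ Metric.ball b₂ δ, L1 P Q Y b ≠ 0 := fun b hb =>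
    (hball₁ b (hball' b hb).2).1
  have hball : ∀ b ∈ Metric.ball b₂ δ, (L2 A B k Y b * (F1 P Q γ c b - κ₁) -
      L1 P Q Y b * (F2 A B k γ c b - κ₂) ≠ 0) ∧ b ∈ Metric.ball (0 : ℂ) ε ∩ {0}ᶜ :=
    fun b hb => hball₀ b (hball₁ b (hball' b hb).2).2
  have hno : ∀ b ∈ Metric.ball b₂ δ, ∀ p q : ℤ, p ≠ 0 → q ≠ 0 →
      (p : ℝ) * L1 P Q Y b + q * L2 A B k Y b ≠ 0 := by
    intro b hb1 p q hp hq hL
    obtain ⟨hne', hbU⟩ := hball b hb1
    have h1 := rel_of_rat γ c h hu hx hY hoff hS hp hq hbU.1 hbU.2 hL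
    refine hne' ?_
    have hq' : (q : ℝ) ≠ 0 := by exact_mod_cast hq
    refine (mul_eq_zero.1 (show (q : ℝ) * (L2 A B k Y b * (F1 P Q γ c b - κ₁) -
      L1 P Q Y b * (F2 A B k γ c b - κ₂)) = 0 from ?_)).resolve_left hq'
    linear_combination (F1 P Q γ c b - κ₁) * hL - L1 P Q Y b * h1
  obtain ⟨f, hf⟩ : ∃ f : ℂ → ℝ, f = fun b => L1 P Q Y b / L2 A B k Y b := ⟨_, rfl⟩
  have hfc : ContinuousOn f (Metric.ball b₂ δ) := by
    intro b hb1
    obtain ⟨-, hbU⟩ := hball b hb1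
    rw [hf]
    exact ((continuousAt_L1 hY h hbU.1).div (continuousAt_L2 hY hu hbU.1 hbU.2)
      (hL2 b hb1)).continuousWithinAt
  have hirr : ∀ b ∈ Metric.ball b₂ δ, ∀ x : ℚ, f b ≠ x := by
    intro b hb1 x hbx
    have hx0 : (x.den : ℝ) ≠ 0 := by exact_mod_cast x.den_pos.ne'
    rw [hf] at hbx
    simp only at hbx
    have hx1 : x ≠ 0 := by
      rintro rfl
      rw [Rat.cast_zero] at hbx
      exact div_ne_zero (hL1 b hb1) (hL2 b hb1) hbx
    refine hno b hb1 x.den (-x.num) (by exact_mod_cast x.den_pos.ne')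
      (neg_ne_zero.2 (Rat.num_ne_zero.2 hx1)) ?_
    rw [div_eq_iff (hL2 b hb1)] at hbx
    have h3 : (x : ℝ) * x.den = x.num := by exact_mod_cast Rat.mul_den_eq_num x
    rw [hbx]
    push_cast
    linear_combination L2 A B k Y b * h3
  have hb₂' : b₂ ∈ Metric.ball b₂ δ := Metric.mem_ball_self hδ
  have hpre : IsPreconnected (f '' Metric.ball b₂ δ) :=
    (convex_ball b₂ δ).isPreconnected.image f hfc
  have hconst : ∀ b ∈ Metric.ball b₂ δ, f b = f b₂ := by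
    intro b hb1
    by_contra h1
    have hord := hpre.ordConnected
    rcases lt_or_gt_of_ne h1 with h2 | h2
    · obtain ⟨x, hx1, hx2⟩ := exists_rat_btwn h2
      obtain ⟨a, ha, hax⟩ := hord.out (mem_image_of_mem f hb1) (mem_image_of_mem f hb₂')
        ⟨hx1.le, hx2.le⟩
      exact hirr a ha x hax
    · obtain ⟨x, hx1, hx2⟩ := exists_rat_btwn h2
      obtain ⟨a, ha, hax⟩ := hord.out (mem_image_of_mem f hb₂') (mem_image_of_mem f hb1)
        ⟨hx1.le, hx2.le⟩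
      exact hirr a ha x hax
  have hrel : ∀ᶠ b in 𝓝 b₂,
      (1 : ℂ) * (r.eval b / Y b) + (-(f b₂ : ℂ)) * (s.eval b / (b * Y b)) = 0 := by
    filter_upwards [Metric.isOpen_ball.mem_nhds hb₂'] with b hb1
    obtain ⟨-, hbU⟩ := hball b hb1
    have h1 := (wd_L1 hY h hbU.1).sub ((wd_L2 hY hu hbU.1 hbU.2).const_mul (f b₂ : ℂ))
    have h2 : ∀ᶠ a in 𝓝 b, (L1 P Q Y a : ℂ) - (f b₂ : ℂ) * (L2 A B k Y a : ℂ) = 0 := by
      filter_upwards [Metric.isOpen_ball.mem_nhds hb1] with a ha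
      have h3 := hconst a ha
      rw [hf] at h3
      simp only at h3
      rw [div_eq_iff (hL2 a ha)] at h3
      have h4 : f b₂ = L1 P Q Y b₂ / L2 A B k Y b₂ := by rw [hf]
      rw [← h4] at h3
      rw [h3]
      push_cast
      ring
    have h3 := (h1.eq_zero h2).1
    linear_combination 2 * h3
  exact one_ne_zero (no_rel h hu hY hb₂U.1 hb₂U.2 hrel).1

/-- The bilinear relation on the punctured disc. -/
theorem bilin {κ₁ κ₂ : ℝ}
    (hS : ∀ (p q : ℤ) (b : ℂ), p ≠ 0 → q ≠ 0 → (∀ l, (γ l).Off b) → Sp D P Q A B k p q b →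
      (p : ℝ) * (F1 P Q γ c b - κ₁) + q * (F2 A B k γ c b - κ₂) = 0)
    {b : ℂ} (hb : b ∈ Metric.ball (0 : ℂ) ε) (hb0 : b ≠ 0) :
    s.eval b / (b * Y b) * conj (Jc γ c r b) - conj (s.eval b / (b * Y b)) * Jc γ c r b -
      r.eval b / Y b * conj (Jc γ c s b / b) + conj (r.eval b / Y b) * (Jc γ c s b / b) = 0 := by
  have hopen : IsOpen (Metric.ball (0 : ℂ) ε ∩ {0}ᶜ) :=
    Metric.isOpen_ball.inter isOpen_compl_singleton
  -- the first derivative
  have h1 : ∀ a ∈ Metric.ball (0 : ℂ) ε ∩ {0}ᶜ,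
      s.eval a / (a * Y a) * ((F1 P Q γ c a : ℂ) - κ₁) -
        Complex.I * (L2 A B k Y a : ℂ) * Jc γ c r a -
        r.eval a / Y a * ((F2 A B k γ c a : ℂ) - κ₂) +
        Complex.I * (L1 P Q Y a : ℂ) * (Jc γ c s a / a) = 0 := by
    intro a ha
    have hκ : ∀ κ : ℝ, Wd (fun _ => (κ : ℂ)) 0 0 a := fun κ =>
      Wd.of_hasDerivAt (hasDerivAt_const a (κ : ℂ))
    have e1 := (wd_L2 hY hu ha.1 ha.2).mul ((wd_F1 γ c h (hoff a ha.1)).sub (hκ κ₁))
    have e2 := (wd_L1 hY h ha.1).mul ((wd_F2 γ c hu hx (hoff a ha.1) ha.2).sub (hκ κ₂))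
    have e3 := ((e1.sub e2).eq_zero (by
      filter_upwards [hopen.mem_nhds ha] with a' ha'
      have e4 := rel γ c h hu hx hY hoff hS ha'.1 ha'.2
      have e5 := congrArg (fun x : ℝ => (x : ℂ)) e4
      push_cast at e5
      exact e5)).1
    linear_combination 2 * e3
  have hbU : b ∈ Metric.ball (0 : ℂ) ε ∩ {0}ᶜ := ⟨hb, hb0⟩
  have hκ : ∀ κ : ℝ, Wd (fun _ => (κ : ℂ)) 0 0 b := fun κ =>
    Wd.of_hasDerivAt (hasDerivAt_const b (κ : ℂ))
  have hY0 := hY.ne b hb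
  have hYd := hY.der b hb
  have hbd : HasDerivAt (fun b : ℂ => b) 1 b := hasDerivAt_id b
  have d1 : Wd (fun b => s.eval b / (b * Y b)) _ 0 b :=
    Wd.of_hasDerivAt ((s.hasDerivAt b).div (hbd.mul hYd) (mul_ne_zero hb0 hY0))
  have d2 : Wd (fun b => r.eval b / Y b) _ 0 b :=
    Wd.of_hasDerivAt ((r.hasDerivAt b).div hYd hY0)
  have hJ : ∀ t : ℂ[X], ∃ α, HasDerivAt (Jc γ c t) α b := by
    intro t
    have e1 : ∀ᶠ a in 𝓝 b, Jc γ c t a =
        t.eval a * J0c γ c a + (RR (Ic γ c) t).eval a := by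
      filter_upwards [Metric.isOpen_ball.mem_nhds hb] with a ha
      exact Pool.Agent.Y94.R.Jc_eq γ c t (hoff a ha)
    exact ⟨_, (((t.hasDerivAt b).mul (Pool.Agent.Y94.R.hasDerivAt_J0c γ c (hoff b hb))).add
      ((RR (Ic γ c) t).hasDerivAt b)).congr_of_eventuallyEq e1⟩
  obtain ⟨α₁, hα₁⟩ := hJ r
  obtain ⟨α₂, hα₂⟩ := hJ s
  have d3 := Wd.of_hasDerivAt hα₁
  have d4 : Wd (fun b => Jc γ c s b / b) _ 0 b := Wd.of_hasDerivAt (hα₂.div hbd hb0)
  have t1 := d1.mul ((wd_F1 γ c h (hoff b hb)).sub (hκ κ₁))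
  have t2 := ((wd_L2 hY hu hb hb0).const_mul Complex.I).mul d3
  have t3 := d2.mul ((wd_F2 γ c hu hx (hoff b hb) hb0).sub (hκ κ₂))
  have t4 := ((wd_L1 hY h hb).const_mul Complex.I).mul d4
  have t5 := ((((t1.sub t2).sub t3).add t4).eq_zero
    (Filter.eventually_of_mem (hopen.mem_nhds hbU) h1)).2
  have hI : Complex.I ≠ 0 := Complex.I_ne_zero
  refine (mul_eq_zero.1 (show Complex.I / 2 * (s.eval b / (b * Y b) * conj (Jc γ c r b) -
    conj (s.eval b / (b * Y b)) * Jc γ c r b - r.eval b / Y b * conj (Jc γ c s b / b) +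
    conj (r.eval b / Y b) * (Jc γ c s b / b)) = 0 from ?_)).resolve_left
    (div_ne_zero hI two_ne_zero)
  linear_combination t5

/-- The combination of the first integrals is a multiple of the logarithmic derivative of
`P + Q y` near `x = 0`. -/
theorem exists_kappa {κ₁ κ₂ : ℝ}
    (hS : ∀ (p q : ℤ) (b : ℂ), p ≠ 0 → q ≠ 0 → (∀ l, (γ l).Off b) → Sp D P Q A B k p q b →
      (p : ℝ) * (F1 P Q γ c b - κ₁) + q * (F2 A B k γ c b - κ₂) = 0) :
    ∃ κ : ℂ, ∀ b ∈ Metric.ball (0 : ℂ) ε, b ≠ 0 → Jc γ c r b = κ * (r.eval b / Y b) := by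
  have hJ : ∀ t : ℂ[X], DifferentiableOn ℂ (Jc γ c t) (Metric.ball 0 ε) := by
    intro t b hb
    have e1 : ∀ᶠ a in 𝓝 b, Jc γ c t a =
        t.eval a * J0c γ c a + (RR (Ic γ c) t).eval a := by
      filter_upwards [Metric.isOpen_ball.mem_nhds hb] with a ha
      exact Pool.Agent.Y94.R.Jc_eq γ c t (hoff a ha)
    exact ((((t.hasDerivAt b).mul (Pool.Agent.Y94.R.hasDerivAt_J0c γ c (hoff b hb))).add
      ((RR (Ic γ c) t).hasDerivAt b)).congr_of_eventuallyEq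
        e1).differentiableAt.differentiableWithinAt
  have hdiv : ∀ t : ℂ[X], DifferentiableOn ℂ (fun b => t.eval b / Y b) (Metric.ball 0 ε) :=
    fun t b hb => (((t.hasDerivAt b).div (hY.der b hb)
      (hY.ne b hb)).differentiableAt).differentiableWithinAt
  have hid : DifferentiableOn ℂ (fun b : ℂ => b) (Metric.ball 0 ε) := differentiableOn_id
  have h0 : (0 : ℂ) ∈ Metric.ball (0 : ℂ) ε := Metric.mem_ball_self hY.pos
  have h1 := polar (Finset.univ : Finset (Fin 4))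
    ![fun b => s.eval b / Y b, fun b => -(b * Jc γ c r b), fun b => -(b * (r.eval b / Y b)),
      fun b => Jc γ c s b]
    ![fun b => b * Jc γ c r b, fun b => s.eval b / Y b, fun b => Jc γ c s b,
      fun b => b * (r.eval b / Y b)] hY.pos
    (by
      intro i _
      fin_cases i
      · exact hdiv s
      · exact (hid.mul (hJ r)).neg
      · exact (hid.mul (hdiv r)).neg
      · exact hJ s)
    (by
      intro i _
      fin_cases i
      · exact hid.mul (hJ r)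
      · exact hdiv s
      · exact hJ s
      · exact hid.mul (hdiv r))
    (by
      intro b hb
      rw [Fin.sum_univ_four]
      simp only [Matrix.cons_val]
      by_cases hb0 : b = 0
      · rw [hb0]
        simp
      · have h2 := bilin γ c h hu hx hY hoff hS hb hb0
        have h3 := hY.ne b hb
        have h4 : conj b ≠ 0 := (_root_.map_ne_zero _).2 hb0
        have h5 : conj (Y b) ≠ 0 := (_root_.map_ne_zero _).2 h3
        simp only [map_div₀, map_mul] at h2 ⊢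
        field_simp at h2 ⊢
        linear_combination h2)
  simp only [Fin.sum_univ_four, Matrix.cons_val] at h1
  refine ⟨-conj (Jc γ c s 0 / (s.eval 0 / Y 0)), fun b hb hb0 => ?_⟩
  have h2 := h1 b hb
  simp only [zero_mul, neg_zero, add_zero] at h2
  have h3 : s.eval 0 / Y 0 ≠ 0 := div_ne_zero hu.s_ne (hY.ne 0 h0)
  have h4 := congrArg conj h2
  simp only [map_add, map_mul, Complex.conj_conj, map_zero] at h4
  have h5 : conj (s.eval 0 / Y 0) ≠ 0 := (_root_.map_ne_zero _).2 h3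
  rw [map_div₀]
  refine mul_left_cancel₀ h5 (mul_left_cancel₀ hb0 ?_)
  rw [show b * (conj (s.eval 0 / Y 0) * (-(conj (Jc γ c s 0) / conj (s.eval 0 / Y 0)) *
    (r.eval b / Y b))) = -(conj (s.eval 0 / Y 0) / conj (s.eval 0 / Y 0)) *
      (conj (Jc γ c s 0) * (b * (r.eval b / Y b))) by ring, div_self h5]
  linear_combination h4

/-- The equation for the polynomial `R`. -/
theorem WW_eq_zero {κ₁ κ₂ : ℝ}
    (hS : ∀ (p q : ℤ) (b : ℂ), p ≠ 0 → q ≠ 0 → (∀ l, (γ l).Off b) → Sp D P Q A B k p q b →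
      (p : ℝ) * (F1 P Q γ c b - κ₁) + q * (F2 A B k γ c b - κ₂) = 0) :
    WW D r (nF (Ic γ c) (NN D)) (RR (Ic γ c) r) = 0 := by
  obtain ⟨κ, hκ⟩ := exists_kappa γ c h hu hx hY hoff hS
  set R := RR (Ic γ c) r with hR
  -- a point
  have hopen : IsOpen (Metric.ball (0 : ℂ) ε ∩ {0}ᶜ) :=
    Metric.isOpen_ball.inter isOpen_compl_singleton
  have hinf : (Metric.ball (0 : ℂ) ε).Infinite :=
    infinite_of_mem_nhds 0 (Metric.isOpen_ball.mem_nhds (Metric.mem_ball_self hY.pos))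
  obtain ⟨b₀, hb₀, hb₀'⟩ : ∃ b₀ ∈ Metric.ball (0 : ℂ) ε, (X * r).eval b₀ ≠ 0 := by
    by_contra hcon
    push Not at hcon
    exact mul_ne_zero X_ne_zero h.r_ne (Polynomial.eq_zero_of_infinite_isRoot _
      (hinf.mono fun b hb => hcon b hb))
  rw [eval_mul, eval_X] at hb₀'
  have hb0 : b₀ ≠ 0 := left_ne_zero_of_mul hb₀'
  have hrb : r.eval b₀ ≠ 0 := right_ne_zero_of_mul hb₀'
  refine eq_of_nhds (b := b₀) ?_
  filter_upwards [hopen.mem_nhds ⟨hb₀, hb0⟩, r.continuous.continuousAt.eventually_ne hrb] with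
    b hb hrb
  have hopen2 : IsOpen {b : ℂ | r.eval b ≠ 0} := isOpen_ne_fun r.continuous continuous_const
  have e1 : ∀ᶠ a in 𝓝 b, J0c γ c a = κ / Y a - R.eval a / r.eval a := by
    filter_upwards [hopen.mem_nhds hb, hopen2.mem_nhds hrb] with a ha hra
    have e2 := Pool.Agent.Y94.R.Jc_eq γ c r (hoff a ha.1)
    rw [hκ a ha.1 ha.2, ← hR] at e2
    have hra' : r.eval a ≠ 0 := hra
    field_simp
    linear_combination (-1 : ℂ) * e2
  have hYb := hY.ne b hb.1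
  have e2 : HasDerivAt (fun a => κ / Y a - R.eval a / r.eval a)
      (-(κ * ((derivative D).eval b / (2 * Y b))) / Y b ^ 2 -
        ((derivative R).eval b * r.eval b - R.eval b * (derivative r).eval b) / r.eval b ^ 2)
      b := by
    have e3 := ((hasDerivAt_const b κ).div (hY.der b hb.1) hYb).sub
      ((R.hasDerivAt b).div (r.hasDerivAt b) hrb)
    refine e3.congr_deriv ?_
    ring
  have e3 := (Pool.Agent.Y94.R.hasDerivAt_J0c γ c (hoff b hb.1)).unique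
    (e2.congr_of_eventuallyEq e1)
  have e4 := Pool.Agent.Y94.R.exch_c γ c (hoff b hb.1)
  rw [e3, e1.self_of_nhds] at e4
  have e5 := hY.sq b hb.1
  unfold WW
  simp only [eval_add, eval_sub, eval_mul, eval_pow, eval_C, eval_zero]
  rw [← e4, ← e5]
  field_simp
  ring

end Near

/-- *Main theorem of this file.* -/
theorem periods_zero (hD : Squarefree D) (h : Pell D P Q r) (hu : Un D A B s k)
    (hx : ∀ l t, (γ l).x t ≠ 0) {κ₁ κ₂ : ℝ}
    (hS : ∀ (p q : ℤ) (b : ℂ), p ≠ 0 → q ≠ 0 → (∀ l, (γ l).Off b) → Sp D P Q A B k p q b →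
      (p : ℝ) * (F1 P Q γ c b - κ₁) + q * (F2 A B k γ c b - κ₂) = 0) :
    ∀ j < r.natDegree, Ic γ c (X ^ j) = 0 := by
  have h0 : ∀ l, (γ l).Off 0 := fun l t => by
    rw [sub_zero]
    exact hx l t
  obtain ⟨Y, ε, hY, hsub⟩ := exists_branch hu.D_ne
    ((Pool.Agent.Y94.R.isOpen_off_all γ).mem_nhds (show (0 : ℂ) ∈ _ from h0))
  have h1 := WW_eq_zero γ c h hu hx hY (fun b hb => hsub hb) hS
  have h2 := eq_zero_of_WW hD h.r_ne (Pool.Agent.Y94.R.RR_degree (Ic γ c) r h.r_ne) h1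
  exact Pool.Agent.Y94.R.functional_zero (Ic γ c) r h.r_ne h2

end Pool.Agent.T9h73.TP
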