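import Pool.Agent.T9h73.TP.Unr
import Pool.Agent.Y94.R.Tor
set_option autoImplicit false

/-!
The regulators of the symbols on the loops.
-/

namespace Pool.Agent.T9h73.TP

open Polynomial MeasureTheory

open Pool.Agent.TH826.MK (Torus symb pairing)

open Pool.Agent.Y94.R (Lp Pell HOpen hpol hy toH hcst hx hz hpt HPt mkH mkH_e mkH_reg hent)

variable {K : Type*} [Field K] {s : K →+* ℂ} {D P Q A B : K[X]} {k n : ℕ} {b : Fin n → K}

theorem evA_hw {x y : ℂ} (h : HPt s D b x y) (hAB : A ^ 2 - D * B ^ 2 = X ^ (2 * k))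
    {i₀ : Fin n} (h0 : b i₀ = 0) :
    h.evA (hw b hAB h0 : HOpen D b) = (A.eval₂ s x + B.eval₂ s x * y) / x ^ k := by
  have hx0 : x ≠ 0 := by
    have h1 := h.ne i₀
    rwa [h0, map_zero] at h1
  have h1 := congrArg h.evA (hw_mul b hAB h0)
  rw [map_mul, map_pow, h.evA_toH, h.evA_toH, map_add, map_mul, h.evB_hpol, h.evB_hpol,
    h.evB_hpol, h.evB_hy, eval₂_X] at h1
  rw [eq_div_iff (pow_ne_zero k hx0)]
  exact h1

/-- The regulator of the symbol `{(A + B y) / x ^ k, h / h(0)}`. -/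
theorem reg_hw {t : ℂ[X]} (hAB : A ^ 2 - D * B ^ 2 = X ^ (2 * k)) {i₀ : Fin n} (h0 : b i₀ = 0)
    (hu : Un (D.map s) (A.map s) (B.map s) t k) (γ : Lp (D.map s))
    (hoff : ∀ m, γ.Off (s (b m))) {i j : Fin n} (hi : b i ≠ 0) (hj : b j ≠ 0) :
    (mkH γ hoff).reg (symb ![hw b hAB h0, hx D b i / hx D b j * hcu D b (b j / b i)]) =
      rhoU (A.map s) (B.map s) k γ (s (b i)) - rhoU (A.map s) (B.map s) k γ (s (b j)) := by
  have hγ : ∀ t, γ.x t ≠ 0 := by
    intro t
    have h1 := hoff i₀ t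
    rwa [h0, map_zero, sub_zero] at h1
  have hsi : s (b i) ≠ 0 := (_root_.map_ne_zero s).2 hi
  have hsj : s (b j) ≠ 0 := (_root_.map_ne_zero s).2 hj
  have hxm : ContDiff ℝ 2 fun t => γ.x t - s (b i) := γ.contDiff_x.sub contDiff_const
  have hxl : ContDiff ℝ 2 fun t => γ.x t - s (b j) := γ.contDiff_x.sub contDiff_const
  have hH : ContDiff ℝ 2 fun t => (γ.x t - s (b i)) / (γ.x t - s (b j)) * (s (b j) / s (b i)) := by
    simp only [div_eq_mul_inv]
    exact (hxm.mul (hxl.inv (hoff j))).mul contDiff_const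
  have hG0 := zU_ne γ hγ hu
  have hG := contDiff_zU (A := A.map s) (B := B.map s) (k := k) γ hγ
  have hc0 : s (b j) / s (b i) ≠ 0 := div_ne_zero hsj hsi
  have h1 := Pool.Agent.TH826.HD.pairing_one_dim hG hH hG0
    (fun t => mul_ne_zero (div_ne_zero (hoff i t) (hoff j t)) hc0)
  rw [Torus.reg_symb]
  have h2 : (mkH γ hoff).pair ![hw b hAB h0, hx D b i / hx D b j * hcu D b (b j / b i)] =
      pairing (![fun θ => zU (A.map s) (B.map s) k γ (θ 0),
        fun θ => (γ.x (θ 0) - s (b i)) / (γ.x (θ 0) - s (b j)) * (s (b j) / s (b i))] :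
          Fin 2 → (Fin 1 → ℝ) → ℂ) := by
    unfold Torus.pair
    congr 1
    funext i' θ
    fin_cases i'
    · show (hpt γ hoff (θ 0)).evA (hw b hAB h0 : HOpen D b) = zU (A.map s) (B.map s) k γ (θ 0)
      rw [evA_hw]
      unfold zU
      rw [eval_map, eval_map]
    · show (hpt γ hoff (θ 0)).evA
        ((hx D b i / hx D b j * hcu D b (b j / b i) : (HOpen D b)ˣ) : HOpen D b) =
        (γ.x (θ 0) - s (b i)) / (γ.x (θ 0) - s (b j)) * (s (b j) / s (b i))
      have h3 : (hpt γ hoff (θ 0)).evA ((hx D b i / hx D b j : (HOpen D b)ˣ) : HOpen D b) *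
          (hpt γ hoff (θ 0)).evA (hx D b j : HOpen D b) =
          (hpt γ hoff (θ 0)).evA (hx D b i : HOpen D b) := by
        rw [← map_mul, ← Units.val_mul, div_mul_cancel]
      rw [HPt.evA_hx, HPt.evA_hx] at h3
      rw [Units.val_mul, map_mul, coe_hcu b (div_ne_zero hj hi), HPt.evA_hcst, map_div₀]
      congr 1
      rw [eq_div_iff (hoff j (θ 0))]
      exact h3
  rw [h2, h1]
  unfold rhoU
  have hlz : Continuous fun t => Real.log ‖zU (A.map s) (B.map s) k γ t‖ :=
    Continuous.log hG.continuous.norm fun t => norm_ne_zero_iff.2 (hG0 t)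
  have hdz : Continuous fun t => (deriv (zU (A.map s) (B.map s) k γ) t /
      zU (A.map s) (B.map s) k γ t).im :=
    Complex.continuous_im.comp ((hG.continuous_deriv (by norm_num)).div hG.continuous hG0)
  have hcont : ∀ m, Continuous fun t => Real.log ‖zU (A.map s) (B.map s) k γ t‖ *
      (deriv γ.x t / (γ.x t - s (b m))).im - (Real.log ‖γ.x t - s (b m)‖ - Real.log ‖s (b m)‖) *
        (deriv (zU (A.map s) (B.map s) k γ) t / zU (A.map s) (B.map s) k γ t).im := by
    intro m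
    have hk : Continuous fun t => γ.x t - s (b m) := γ.continuous_x.sub continuous_const
    exact (hlz.mul (Complex.continuous_im.comp (γ.continuous_dx.div hk (hoff m)))).sub
      (((Continuous.log hk.norm fun t => norm_ne_zero_iff.2 (hoff m t)).sub
        continuous_const).mul hdz)
  rw [← intervalIntegral.integral_sub ((hcont i).intervalIntegrable _ _)
    ((hcont j).intervalIntegrable _ _)]
  refine intervalIntegral.integral_congr fun t _ => ?_
  have e3 := hoff i t
  have e4 := hoff j t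
  have e1 : deriv (fun t => (γ.x t - s (b i)) / (γ.x t - s (b j)) * (s (b j) / s (b i))) t /
      ((γ.x t - s (b i)) / (γ.x t - s (b j)) * (s (b j) / s (b i))) =
      deriv γ.x t / (γ.x t - s (b i)) - deriv γ.x t / (γ.x t - s (b j)) := by
    have e2 := (((γ.hasDerivAt_x t).sub_const (s (b i))).div
      ((γ.hasDerivAt_x t).sub_const (s (b j))) (hoff j t)).mul_const (s (b j) / s (b i))
    have e5 : deriv (fun t => (γ.x t - s (b i)) / (γ.x t - s (b j)) * (s (b j) / s (b i))) t =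
        _ := e2.deriv
    rw [e5]
    field_simp
  have e6 : Real.log ‖(γ.x t - s (b i)) / (γ.x t - s (b j)) * (s (b j) / s (b i))‖ =
      (Real.log ‖γ.x t - s (b i)‖ - Real.log ‖s (b i)‖) -
        (Real.log ‖γ.x t - s (b j)‖ - Real.log ‖s (b j)‖) := by
    rw [norm_mul, norm_div, norm_div, Real.log_mul (div_ne_zero (norm_ne_zero_iff.2 e3)
      (norm_ne_zero_iff.2 e4)) (div_ne_zero (norm_ne_zero_iff.2 hsj) (norm_ne_zero_iff.2 hsi)),
      Real.log_div (norm_ne_zero_iff.2 e3) (norm_ne_zero_iff.2 e4),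
      Real.log_div (norm_ne_zero_iff.2 hsj) (norm_ne_zero_iff.2 hsi)]
    ring
  rw [e1, e6, Complex.sub_im]
  ring

/-- The regulator of the symbols. -/
theorem reg_sy {r t : K[X]} (hPQ : P ^ 2 - D * Q ^ 2 = 1)
    (hp : Pell (D.map s) (P.map s) (Q.map s) (r.map s))
    (hAB : A ^ 2 - D * B ^ 2 = X ^ (2 * k)) {i₀ : Fin n} (h0 : b i₀ = 0)
    (hu : Un (D.map s) (A.map s) (B.map s) (t.map s) k) (γ : Lp (D.map s))
    (hoff : ∀ m, γ.Off (s (b m))) {i j : Fin n} (hi : b i ≠ 0) (hj : b j ≠ 0) (p q : ℤ) :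
    (mkH γ hoff).reg (sy b hPQ hAB h0 p q i j) =
      p * (γ.rho (P.map s) (Q.map s) (s (b i)) - γ.rho (P.map s) (Q.map s) (s (b j))) +
      q * (rhoU (A.map s) (B.map s) k γ (s (b i)) -
        rhoU (A.map s) (B.map s) k γ (s (b j))) := by
  unfold sy
  rw [map_add, map_smul, map_smul, reg_hw hAB h0 hu γ hoff hi hj,
    show (![hz b hPQ, hx D b i / hx D b j] : Fin 2 → (HOpen D b)ˣ) = hent b hPQ i j from rfl,
    mkH_reg hPQ hp γ hoff, Rat.smul_def, Rat.smul_def, Rat.cast_intCast, Rat.cast_intCast]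

end Pool.Agent.T9h73.TP
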