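import Pool.Agent.Y94.R.Real
set_option autoImplicit false

/-!
The second unit `(A + B y) / x ^ k` and its regulator integrals.
-/

namespace Pool.Agent.T9h73.TP

open Polynomial MeasureTheory Set

open Pool.Agent.Y94.R (Lp hasDerivAt_log_norm hasDerivAt_integral)

open Pool.Agent.Y94.R.Lp (integral_deriv_eq_zero)

open scoped Interval

section Gen

variable {D : ℂ[X]} (γ : Lp D) {z dz : ℝ → ℂ}

/-- The derivative of the regulator integral of the symbol `{z, x - b}` for a general function `z`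
on the loop. -/
theorem hasDerivAt_gen (hz : ∀ s, HasDerivAt z (dz s * z s) s) (hz0 : ∀ s, z s ≠ 0)
    (hdz : Continuous dz) (hz1 : z 1 = z 0) {β β' : ℝ → ℂ} {t₀ ε : ℝ} (hε : 0 < ε)
    (hβ : ∀ t ∈ Metric.closedBall t₀ ε, HasDerivAt β (β' t) t)
    (hβ' : ContinuousOn β' (Metric.closedBall t₀ ε))
    (hoff : ∀ t ∈ Metric.closedBall t₀ ε, γ.Off (β t)) :
    HasDerivAt (fun t => ∫ s in (0 : ℝ)..1,
      (Real.log ‖z s‖ * (deriv γ.x s / (γ.x s - β t)).im -
        Real.log ‖γ.x s - β t‖ * (dz s).im))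
      (β' t₀ * ∫ s in (0 : ℝ)..1, dz s / (γ.x s - β t₀)).im t₀ := by
  have hzc : Continuous z := continuous_iff_continuousAt.2 fun s => (hz s).continuousAt
  have hlz : Continuous fun s => Real.log ‖z s‖ :=
    Continuous.log hzc.norm fun s => norm_ne_zero_iff.2 (hz0 s)
  have hdx := γ.continuous_dx
  have hβc : ContinuousOn β (Metric.closedBall t₀ ε) := fun t ht =>
    (hβ t ht).continuousAt.continuousWithinAt
  set F' : ℝ → ℝ → ℝ := fun t s => Real.log ‖z s‖ *
      (deriv γ.x s * β' t / (γ.x s - β t) ^ 2).im +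
        (β' t / (γ.x s - β t)).re * (dz s).im with hF'
  have h1 : HasDerivAt (fun t => ∫ s in (0 : ℝ)..1,
      (Real.log ‖z s‖ * (deriv γ.x s / (γ.x s - β t)).im -
        Real.log ‖γ.x s - β t‖ * (dz s).im)) (∫ s in (0 : ℝ)..1, F' t₀ s) t₀ := by
    refine hasDerivAt_integral (𝕜 := ℝ) hε
      (F := fun t s => Real.log ‖z s‖ * (deriv γ.x s / (γ.x s - β t)).im -
        Real.log ‖γ.x s - β t‖ * (dz s).im) (F' := F') ?_ ?_ ?_
    · intro t ht
      have ho := hoff t (Metric.ball_subset_closedBall ht)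
      have hxb : Continuous fun s => γ.x s - β t := γ.continuous_x.sub continuous_const
      exact (hlz.mul (Complex.continuous_im.comp (hdx.div hxb ho))).sub
        ((Continuous.log hxb.norm fun s => norm_ne_zero_iff.2 (ho s)).mul
          (Complex.continuous_im.comp hdz))
    · have hxb : ContinuousOn (fun p : ℝ × ℝ => γ.x p.2 - β p.1)
          (Metric.closedBall t₀ ε ×ˢ Icc 0 1) :=
        (γ.continuous_x.comp continuous_snd).continuousOn.sub
          (hβc.comp continuousOn_fst fun p hp => hp.1)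
      have hb' : ContinuousOn (fun p : ℝ × ℝ => β' p.1) (Metric.closedBall t₀ ε ×ˢ Icc 0 1) :=
        hβ'.comp continuousOn_fst fun p hp => hp.1
      have hne : ∀ p ∈ Metric.closedBall t₀ ε ×ˢ Icc (0 : ℝ) 1, γ.x p.2 - β p.1 ≠ 0 :=
        fun p hp => hoff p.1 hp.1 p.2
      refine ContinuousOn.add ?_ ?_
      · exact (hlz.comp continuous_snd).continuousOn.mul
          (Complex.continuous_im.comp_continuousOn
            (((hdx.comp continuous_snd).continuousOn.mul hb').div (hxb.pow 2)
              fun p hp => pow_ne_zero 2 (hne p hp)))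
      · exact (Complex.continuous_re.comp_continuousOn (hb'.div hxb hne)).mul
          ((Complex.continuous_im.comp hdz).comp continuous_snd).continuousOn
    · intro t ht s
      have ho := hoff t (Metric.ball_subset_closedBall ht) s
      have hb := hβ t (Metric.ball_subset_closedBall ht)
      have e1 : HasDerivAt (fun t => γ.x s - β t) (-β' t) t := hb.const_sub _
      have e2 : HasDerivAt (fun t => deriv γ.x s / (γ.x s - β t))
          (deriv γ.x s * β' t / (γ.x s - β t) ^ 2) t := by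
        refine ((hasDerivAt_const t (deriv γ.x s)).div e1 ho).congr_deriv ?_
        simp
      have e3 := (Complex.imCLM.hasFDerivAt.comp_hasDerivAt t e2).const_mul
        (Real.log ‖z s‖)
      have e4 := (hasDerivAt_log_norm e1 ho).mul_const (dz s).im
      refine (e3.sub e4).congr_deriv ?_
      rw [neg_div, Complex.neg_re, hF']
      simp only [Complex.imCLM_apply]
      ring
  refine h1.congr_deriv ?_
  -- integration by parts
  have ho := hoff t₀ (Metric.mem_closedBall_self hε.le)
  have hxb : Continuous fun s => γ.x s - β t₀ := γ.continuous_x.sub continuous_const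
  have h2 : ∀ s, HasDerivAt (fun s => Real.log ‖z s‖ * (β' t₀ / (γ.x s - β t₀)).im)
      ((dz s).re * (β' t₀ / (γ.x s - β t₀)).im +
        Real.log ‖z s‖ * (-(deriv γ.x s * β' t₀) / (γ.x s - β t₀) ^ 2).im) s := by
    intro s
    have e1 := hasDerivAt_log_norm (hz s) (hz0 s)
    rw [mul_div_assoc, div_self (hz0 s), mul_one] at e1
    have e2 : HasDerivAt (fun s => β' t₀ / (γ.x s - β t₀))
        (-(deriv γ.x s * β' t₀) / (γ.x s - β t₀) ^ 2) s := by
      refine ((hasDerivAt_const s (β' t₀)).div ((γ.hasDerivAt_x s).sub_const _)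
        (ho s)).congr_deriv ?_
      ring
    exact e1.mul (Complex.imCLM.hasFDerivAt.comp_hasDerivAt s e2)
  have h3 : Continuous fun s => (dz s).re * (β' t₀ / (γ.x s - β t₀)).im +
        Real.log ‖z s‖ * (-(deriv γ.x s * β' t₀) / (γ.x s - β t₀) ^ 2).im :=
    ((Complex.continuous_re.comp hdz).mul (Complex.continuous_im.comp
      (continuous_const.div hxb ho))).add (hlz.mul (Complex.continuous_im.comp
        ((hdx.mul continuous_const).neg.div (hxb.pow 2) fun s => pow_ne_zero 2 (ho s))))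
  have h4 := integral_deriv_eq_zero h2 h3 (by rw [hz1, γ.x_one])
  have h5 : (β' t₀ * ∫ s in (0 : ℝ)..1, dz s / (γ.x s - β t₀)).im = ∫ s in (0 : ℝ)..1,
      (β' t₀ * (dz s / (γ.x s - β t₀))).im := by
    rw [← intervalIntegral.integral_const_mul]
    exact (Complex.imCLM.intervalIntegral_comp_comm (a := 0) (b := 1) (μ := volume)
      ((continuous_const.mul (hdz.div hxb ho)).intervalIntegrable 0 1)).symm
  have hcF : Continuous (F' t₀) :=
    (hlz.mul (Complex.continuous_im.comp ((hdx.mul continuous_const).div (hxb.pow 2)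
      fun s => pow_ne_zero 2 (ho s)))).add ((Complex.continuous_re.comp
        (continuous_const.div hxb ho)).mul (Complex.continuous_im.comp hdz))
  have h6 := intervalIntegral.integral_add (μ := volume)
    (hcF.intervalIntegrable 0 1) (h3.intervalIntegrable 0 1)
  rw [h4, add_zero] at h6
  rw [h5, ← h6]
  refine intervalIntegral.integral_congr fun s _ => ?_
  rw [hF']
  have e1 : β' t₀ * (dz s / (γ.x s - β t₀)) = (β' t₀ / (γ.x s - β t₀)) * dz s := by
    ring
  simp only
  rw [e1, Complex.mul_im, neg_div, Complex.neg_im]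
  ring

/-- The integral of `d log z` over the loop is purely imaginary. -/
theorem re_integral_dlog (hz : ∀ s, HasDerivAt z (dz s * z s) s) (hz0 : ∀ s, z s ≠ 0)
    (hdz : Continuous dz) (hz1 : z 1 = z 0) : (∫ s in (0 : ℝ)..1, dz s).re = 0 := by
  have h1 : ∀ s, HasDerivAt (fun s => Real.log ‖z s‖) (dz s).re s := by
    intro s
    have e1 := hasDerivAt_log_norm (hz s) (hz0 s)
    rwa [mul_div_assoc, div_self (hz0 s), mul_one] at e1
  have h2 := integral_deriv_eq_zero h1 (Complex.continuous_re.comp hdz) (by rw [hz1])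
  refine Eq.trans ?_ h2
  exact (Complex.reCLM.intervalIntegral_comp_comm (a := 0) (b := 1) (μ := volume)
    (hdz.intervalIntegrable 0 1)).symm

end Gen

/-- The second unit `(A + B y) / x ^ k`. -/
structure Un (D A B s : ℂ[X]) (k : ℕ) : Prop where
  eq : A ^ 2 - D * B ^ 2 = X ^ (2 * k)
  der : X * derivative A - C (k : ℂ) * A = s * B
  pos : 0 < k
  ne : A.eval 0 ≠ 0

namespace Un

variable {D A B s : ℂ[X]} {k : ℕ} (h : Un D A B s k)

include h

theorem eval_eq : A.eval 0 ^ 2 = D.eval 0 * B.eval 0 ^ 2 := by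
  have h1 := congrArg (Polynomial.eval 0) h.eq
  have h2 := h.pos
  simp only [eval_sub, eval_mul, eval_pow, eval_X] at h1
  rw [zero_pow (by omega)] at h1
  linear_combination h1

theorem D_ne : D.eval 0 ≠ 0 := by
  intro h1
  have h2 := h.eval_eq
  rw [h1, zero_mul] at h2
  exact h.ne (pow_eq_zero_iff two_ne_zero |>.1 h2)

theorem B_ne : B.eval 0 ≠ 0 := by
  intro h1
  have h2 := h.eval_eq
  rw [h1, zero_pow two_ne_zero, mul_zero] at h2
  exact h.ne (pow_eq_zero_iff two_ne_zero |>.1 h2)

theorem B_ne' : B ≠ 0 := by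
  intro h1
  exact h.B_ne (by rw [h1, eval_zero])

theorem s_ne : s.eval 0 ≠ 0 := by
  intro h1
  have h2 := congrArg (Polynomial.eval 0) h.der
  simp only [eval_sub, eval_mul, eval_X, eval_C, zero_mul, zero_sub, h1] at h2
  have h3 := h.pos
  exact mul_ne_zero (Nat.cast_ne_zero.2 h3.ne') h.ne (neg_eq_zero.1 h2)

theorem mul_s : A * s = C (1 / 2) * (X * derivative D) * B + X * D * derivative B -
    C (k : ℂ) * D * B := by
  have h1 := congrArg derivative h.eq
  have h0 := h.pos
  have h2 : X * derivative (X ^ (2 * k) : ℂ[X]) = C (2 * k : ℂ) * X ^ (2 * k) := by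
    rw [derivative_X_pow]
    obtain ⟨j, hj⟩ : ∃ j, 2 * k = j + 1 := ⟨2 * k - 1, by omega⟩
    have h3 : ((2 * k : ℕ) : ℂ) = 2 * (k : ℂ) := by push_cast; ring
    rw [← h3, hj, Nat.add_sub_cancel]
    ring
  rw [← h1, ← h.eq] at h2
  simp only [derivative_sub, derivative_mul, derivative_pow] at h2
  have h3 : (C (1 / 2) : ℂ[X]) * C 2 = 1 := by
    rw [← C_mul]
    norm_num
  have h4 : C ((2 : ℕ) : ℂ) = (C 2 : ℂ[X]) := by norm_num
  rw [h4, C_mul] at h2
  simp only [Nat.add_one_sub_one, pow_one] at h2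
  refine mul_left_cancel₀ h.B_ne' ?_
  have h5 : C (2 : ℂ) * (B * (A * s)) = C (2 : ℂ) * (B * (C (1 / 2) * (X * derivative D) * B +
      X * D * derivative B - C (k : ℂ) * D * B)) := by
    linear_combination h2 - C 2 * A * h.der - X * derivative D * B ^ 2 * h3
  exact mul_left_cancel₀ (C_ne_zero.2 two_ne_zero) h5

end Un

section Loop

variable {D A B s : ℂ[X]} {k : ℕ} (γ : Lp D)

variable (A B k) in
/-- the function `(A + B y) / x ^ k` on the loop -/
noncomputable def zU (t : ℝ) : ℂ :=
  (A.eval (γ.x t) + B.eval (γ.x t) * γ.y t) / γ.x t ^ k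

variable (s) in
/-- the logarithmic derivative of the function `(A + B y) / x ^ k` on the loop -/
noncomputable def dzU (t : ℝ) : ℂ := s.eval (γ.x t) * (deriv γ.x t / γ.y t) / γ.x t

theorem zU_one : zU A B k γ 1 = zU A B k γ 0 := by
  unfold zU
  rw [γ.x_one, γ.y_one]

variable (hx : ∀ t, γ.x t ≠ 0)

include hx

theorem contDiff_zU : ContDiff ℝ 2 (zU A B k γ) := by
  unfold zU
  simp only [div_eq_mul_inv]
  exact ((γ.contDiff_pol A).add ((γ.contDiff_pol B).mul γ.contDiff_y)).mul
    ((γ.contDiff_x.pow k).inv fun t => pow_ne_zero k (hx t))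

theorem continuous_dzU : Continuous (dzU s γ) :=
  ((γ.continuous_pol s).mul (γ.continuous_dx.div γ.continuous_y γ.ne)).div γ.continuous_x hx

variable (h : Un D A B s k)

include h

theorem zU_ne (t : ℝ) : zU A B k γ t ≠ 0 := by
  have h1 := congrArg (Polynomial.eval (γ.x t)) h.eq
  simp only [eval_sub, eval_mul, eval_pow, eval_X] at h1
  rw [← γ.eq t] at h1
  have h2 : (A.eval (γ.x t) + B.eval (γ.x t) * γ.y t) *
      (A.eval (γ.x t) - B.eval (γ.x t) * γ.y t) = γ.x t ^ (2 * k) := by
    linear_combination h1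
  have h3 : (A.eval (γ.x t) + B.eval (γ.x t) * γ.y t) ≠ 0 := by
    intro h4
    rw [h4, zero_mul] at h2
    exact pow_ne_zero _ (hx t) h2.symm
  exact div_ne_zero h3 (pow_ne_zero _ (hx t))

theorem hasDerivAt_zU (t : ℝ) : HasDerivAt (zU A B k γ) (dzU s γ t * zU A B k γ t) t := by
  have h1 := (A.hasDerivAt (γ.x t)).comp t (γ.hasDerivAt_x t)
  have h2 := (B.hasDerivAt (γ.x t)).comp t (γ.hasDerivAt_x t)
  have h3 := (h1.add (h2.mul (γ.hasDerivAt_y t))).div ((γ.hasDerivAt_x t).pow k)
    (pow_ne_zero k (hx t))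
  refine h3.congr_deriv ?_
  have h4 := congrArg (Polynomial.eval (γ.x t)) h.mul_s
  have h5 := congrArg (Polynomial.eval (γ.x t)) h.der
  simp only [eval_add, eval_sub, eval_mul, eval_C, eval_X] at h4 h5
  unfold dzU zU
  have h6 := γ.ne t
  have h7 := γ.eq t
  have h8 := hx t
  obtain ⟨j, hj⟩ : ∃ j, k = j + 1 := ⟨k - 1, by have := h.pos; omega⟩
  simp only [Function.comp_apply, Pi.add_apply, Pi.mul_apply, Pi.pow_apply]
  subst hj
  rw [Nat.add_sub_cancel, pow_succ (γ.x t) j]
  have h9 : γ.x t ^ j ≠ 0 := pow_ne_zero j h8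
  field_simp
  linear_combination deriv γ.x t * (2 * γ.y t * h5 - 2 * h4 +
    (2 * (derivative B).eval (γ.x t) * γ.x t - 2 * ((j + 1 : ℕ) : ℂ) * B.eval (γ.x t)) * h7)

/-- The integral of `d log z` is purely imaginary. -/
theorem re_integral_dzU : (∫ t in (0 : ℝ)..1, dzU s γ t).re = 0 :=
  re_integral_dlog (hasDerivAt_zU γ hx h) (zU_ne γ hx h) (continuous_dzU γ hx) (zU_one γ)

theorem deriv_zU (t : ℝ) : deriv (zU A B k γ) t / zU A B k γ t = dzU s γ t := by
  rw [(hasDerivAt_zU γ hx h t).deriv, mul_div_assoc, div_self (zU_ne γ hx h t), mul_one]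

omit hx h

variable (A B k) in
/-- The regulator integral of the symbol `{(A + B y) / x ^ k, (x - b) / (- b)}`. -/
noncomputable def rhoU (b : ℂ) : ℝ := ∫ t in (0 : ℝ)..1,
  (Real.log ‖zU A B k γ t‖ * (deriv γ.x t / (γ.x t - b)).im -
    (Real.log ‖γ.x t - b‖ - Real.log ‖b‖) * (deriv (zU A B k γ) t / zU A B k γ t).im)

include hx h

theorem hasDerivAt_rhoU {β β' : ℝ → ℂ} {t₀ ε : ℝ} (hε : 0 < ε)
    (hβ : ∀ t ∈ Metric.closedBall t₀ ε, HasDerivAt β (β' t) t)
    (hβ' : ContinuousOn β' (Metric.closedBall t₀ ε))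
    (hoff : ∀ t ∈ Metric.closedBall t₀ ε, γ.Off (β t)) (hβ0 : β t₀ ≠ 0) :
    HasDerivAt (fun t => rhoU A B k γ (β t)) (β' t₀ * (γ.J s (β t₀) / β t₀)).im t₀ := by
  have hz := hasDerivAt_zU γ hx h
  have hz0 := zU_ne γ hx h
  have hdz := continuous_dzU (s := s) γ hx
  have h1 := hasDerivAt_gen γ hz hz0 hdz (zU_one γ) hε hβ hβ' hoff
  have hb := hβ t₀ (Metric.mem_closedBall_self hε.le)
  have ho := hoff t₀ (Metric.mem_closedBall_self hε.le)
  have h2 := (hasDerivAt_log_norm hb hβ0).mul_const (∫ t in (0 : ℝ)..1, (dzU s γ t).im)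
  have hlz : Continuous fun s => Real.log ‖zU A B k γ s‖ :=
    Continuous.log (contDiff_zU γ hx).continuous.norm fun s => norm_ne_zero_iff.2 (hz0 s)
  have h3 : ∀ t ∈ Metric.closedBall t₀ ε, rhoU A B k γ (β t) =
      (∫ s' in (0 : ℝ)..1, (Real.log ‖zU A B k γ s'‖ * (deriv γ.x s' / (γ.x s' - β t)).im -
        Real.log ‖γ.x s' - β t‖ * (dzU s γ s').im)) +
      Real.log ‖β t‖ * ∫ t in (0 : ℝ)..1, (dzU s γ t).im := by
    intro t ht
    have hot := hoff t ht
    have hxb : Continuous fun s => γ.x s - β t := γ.continuous_x.sub continuous_const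
    unfold rhoU
    rw [← intervalIntegral.integral_const_mul, ← intervalIntegral.integral_add]
    · refine intervalIntegral.integral_congr fun s' _ => ?_
      simp only [deriv_zU γ hx h]
      ring
    · exact ((hlz.mul (Complex.continuous_im.comp (γ.continuous_dx.div hxb hot))).sub
        ((Continuous.log hxb.norm fun s => norm_ne_zero_iff.2 (hot s)).mul
          (Complex.continuous_im.comp hdz))).intervalIntegrable _ _
    · exact (continuous_const.mul (Complex.continuous_im.comp hdz)).intervalIntegrable _ _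
  have h4 : HasDerivAt (fun t => rhoU A B k γ (β t))
      ((β' t₀ * ∫ s' in (0 : ℝ)..1, dzU s γ s' / (γ.x s' - β t₀)).im +
        (β' t₀ / β t₀).re * ∫ t in (0 : ℝ)..1, (dzU s γ t).im) t₀ :=
    (h1.add h2).congr_of_eventuallyEq
      (Filter.eventually_of_mem (Metric.closedBall_mem_nhds t₀ hε) h3)
  refine h4.congr_deriv ?_
  have h5 : (∫ t in (0 : ℝ)..1, (dzU s γ t).im) = (∫ t in (0 : ℝ)..1, dzU s γ t).im :=
    Complex.imCLM.intervalIntegral_comp_comm (a := 0) (b := 1) (μ := volume)
      (hdz.intervalIntegrable 0 1)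
  have h6 := re_integral_dzU γ hx h
  have h7 : (β' t₀ / β t₀).re * (∫ t in (0 : ℝ)..1, dzU s γ t).im =
      (β' t₀ / β t₀ * ∫ t in (0 : ℝ)..1, dzU s γ t).im := by
    rw [Complex.mul_im, h6, mul_zero, add_zero]
  rw [h5, h7, ← Complex.add_im]
  congr 1
  have hxb : Continuous fun s => γ.x s - β t₀ := γ.continuous_x.sub continuous_const
  unfold Lp.J
  rw [← intervalIntegral.integral_div, ← intervalIntegral.integral_const_mul,
    ← intervalIntegral.integral_const_mul, ← intervalIntegral.integral_const_mul,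
    ← intervalIntegral.integral_add]
  · refine intervalIntegral.integral_congr fun s' _ => ?_
    have e1 := ho s'
    have e2 := γ.ne s'
    have e3 := hx s'
    unfold dzU
    field_simp
    ring
  · exact (continuous_const.mul (hdz.div hxb ho)).intervalIntegrable _ _
  · exact (continuous_const.mul hdz).intervalIntegrable _ _

end Loop

end Pool.Agent.T9h73.TP
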